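import Pool.Agent.Helper68.EKC.EnergyU
import Pool.Agent.Helper39.Area.Branch
import Pool.Agent.Helper39.EK.E1a
import Pool.Agent.Helper52.EK.Defs
set_option autoImplicit false
open Complex MeasureTheory Metric Set Filter Topology
open scoped Real ENNReal ComplexConjugate NNReal

/-! The branch of `log N`, and the energy on the disc with a unimodular factor `u`. -/

namespace Pool.Agent.Helper68.EKC

open Pool.Agent.Helper39.Area Pool.Agent.Helper52.EK Pool.Agent.Helper39.EK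

variable {β : ℂ → ℂ}

/-- `L` is the logarithm of `N β = psi'(1/z)` with `L 0 = 0` -/
structure IsLog (β L : ℂ → ℂ) : Prop where
  cont : ContinuousOn L (ball 0 1)
  zero : L 0 = 0
  exp : ∀ z ∈ ball (0:ℂ) 1, Complex.exp (L z) = N β z

/-- identification of the branch: any logarithm of the divided difference, at the diagonal -/
theorem branch_eq (h : Ext β) {H : ℂ → ℂ} (hH : ContinuousOn H (ball 0 1)) (hH0 : H 0 = 0)
    (hexp : ∀ ζ ∈ ball (0:ℂ) 1, Complex.exp (H ζ) = N β ζ) {a : ℂ}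
    (ha : a ∈ ball (0:ℂ) 1) {F : ℂ → ℂ} (hFc : ContinuousOn F (ball 0 1)) (hF0 : F 0 = 0)
    (hFe : ∀ ζ ∈ ball (0:ℂ) 1, Complex.exp (F ζ) = qq β a ζ) : H a = F a := by
  set U : Set (ℂ × ℂ) := ball 0 1 ×ˢ ball 0 1 with hU
  have hUo : IsOpen U := isOpen_ball.prod isOpen_ball
  have hUconv : Convex ℝ U := (convex_ball _ _).prod (convex_ball _ _)
  have h00 : ((0:ℂ), (0:ℂ)) ∈ U := ⟨mem_ball_self one_pos, mem_ball_self one_pos⟩
  have hUs : IsSimplyConnected U := by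
    have hc : ContractibleSpace U := hUconv.contractibleSpace ⟨_, h00⟩
    show SimplyConnectedSpace U
    infer_instance
  have hqc : ContinuousOn (fun p : ℂ × ℂ => qq β p.1 p.2) U := by
    unfold qq
    apply ContinuousOn.sub continuousOn_const
    apply ContinuousOn.mul (by fun_prop)
    exact dslope_cont h.diff
  have hq0 : 0 ∉ (fun p : ℂ × ℂ => qq β p.1 p.2) '' U := by
    rintro ⟨p, ⟨hp1, hp2⟩, hp⟩
    exact qq_ne h hp1 hp2 hp
  obtain ⟨Φ, hΦc, hΦ⟩ := Complex.exists_continuousOn_eqOn_exp_comp hUs hUo hqc hq0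
  have hΦe : ∀ b ∈ ball (0:ℂ) 1, ∀ ζ ∈ ball (0:ℂ) 1, Complex.exp (Φ (b, ζ)) = qq β b ζ :=
    fun b hb ζ hζ => hΦ (show (b, ζ) ∈ U from ⟨hb, hζ⟩)
  have h0b : (0:ℂ) ∈ ball (0:ℂ) 1 := mem_ball_self one_pos
  -- the diagonal
  have hTc : ContinuousOn (fun b : ℂ => Φ (b, b) - Φ (b, 0)) (ball 0 1) := by
    apply ContinuousOn.sub
    · exact hΦc.comp (by fun_prop) (fun b hb => ⟨hb, hb⟩)
    · exact hΦc.comp (by fun_prop) (fun b hb => ⟨hb, h0b⟩)
  have hTe : ∀ b ∈ ball (0:ℂ) 1, Complex.exp (Φ (b, b) - Φ (b, 0)) = 1 - b ^ 2 * deriv β b := by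
    intro b hb
    rw [Complex.exp_sub, hΦe b hb b hb, hΦe b hb 0 h0b]
    simp only [qq, mul_zero, zero_mul, sub_zero, div_one, dslope_same]
    ring
  have hTHc : ContinuousOn (fun b : ℂ => (Φ (b, b) - Φ (b, 0)) - H b) (ball 0 1) := hTc.sub hH
  have hTH : ∀ b ∈ ball (0:ℂ) 1, (Φ (b, b) - Φ (b, 0)) - H b = 0 := by
    apply eq_zero_of_exp_one (convex_ball (0:ℂ) 1).isPreconnected hTHc _ h0b
    · simp [hH0]
    · intro b hb
      rw [Complex.exp_sub, hTe b hb, hexp b hb, N, div_self]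
      exact h.ne b hb
  have hFΦ : ∀ ζ ∈ ball (0:ℂ) 1, (Φ (a, ζ) - Φ (a, 0)) - F ζ = 0 := by
    apply eq_zero_of_exp_one (convex_ball (0:ℂ) 1).isPreconnected _ _ h0b
    · simp [hF0]
    · apply ContinuousOn.sub _ hFc
      apply ContinuousOn.sub _ continuousOn_const
      exact hΦc.comp (by fun_prop) (fun ζ hζ => ⟨ha, hζ⟩)
    · intro ζ hζ
      rw [Complex.exp_sub, Complex.exp_sub, hΦe a ha ζ hζ, hΦe a ha 0 h0b, hFe ζ hζ]
      have h2 : qq β a 0 = 1 := by simp [qq]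
      rw [h2, div_one, div_self (qq_ne h ha hζ)]
  have h1 := hTH a ha
  have h2 := hFΦ a ha
  linear_combination h2 - h1

/-- derivative of `log ((f z - f a) / (1/z - 1/a)) - u log (1 - a z)` -/
noncomputable def DdU (β : ℂ → ℂ) (u : ℂ) (a : ℝ) (z : ℂ) : ℂ :=
  dphi β z / (phi β z - phi β a) - (-z⁻¹ + (z - a)⁻¹ - u * (a / (1 - a * z)))

theorem E1aU (h : Ext β) {L : ℂ → ℂ} (hL : IsLog β L) {u : ℂ} (hu : ‖u‖ = 1) {a ρ : ℝ}
    (ha : 0 < a) (haρ : a < ρ) (hρ : ρ < 1) :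
    IntegrableOn (fun z : ℂ => ‖DdU β u a z‖ ^ 2) (ball 0 ρ) ∧
    ∫ z in ball (0:ℂ) ρ, ‖DdU β u a z‖ ^ 2 ≤
      2 * π * (- Real.log (1 - a ^ 2) + (conj u * L a).re) := by
  have hρ0 : 0 < ρ := ha.trans haρ
  have ha1 : ((a:ℝ):ℂ) ∈ ball (0:ℂ) 1 := by
    rw [mem_ball, dist_zero_right, Complex.norm_real, Real.norm_of_nonneg ha.le]
    linarith
  have ha0 : ((a:ℝ):ℂ) ≠ 0 := by exact_mod_cast ha.ne'
  obtain ⟨F, hF0, hF, hexp⟩ := exists_log h ha1
  have hFd : DifferentiableOn ℂ F (ball 0 1) := fun ζ hζ =>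
    (hF ζ hζ).differentiableAt.differentiableWithinAt
  have hLF : L a = F a := branch_eq h hL.cont hL.zero hL.exp ha1 hFd.continuousOn hF0 hexp
  set g : ℂ → ℝ := fun z => ‖deriv F z + u * (conj (a:ℂ) / (1 - conj (a:ℂ) * z))‖ ^ 2 with hg
  have hgc : ContinuousOn g (closedBall 0 ρ) := by
    have hdc : ContinuousOn (deriv F) (closedBall 0 ρ) :=
      (hFd.deriv isOpen_ball).continuousOn.mono (closedBall_subset_ball hρ)
    apply ContinuousOn.pow
    apply ContinuousOn.norm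
    apply hdc.add
    apply continuousOn_const.mul
    apply ContinuousOn.div continuousOn_const (by fun_prop)
    intro z hz h0
    rw [mem_closedBall, dist_zero_right] at hz
    have h1 : conj (a:ℂ) * z = 1 := (sub_eq_zero.mp h0).symm
    have h2 : ‖conj (a:ℂ) * z‖ = 1 := by rw [h1, norm_one]
    rw [norm_mul, RCLike.norm_conj, Complex.norm_real, Real.norm_of_nonneg ha.le] at h2
    nlinarith [norm_nonneg z]
  have hgi : IntegrableOn g (ball 0 ρ) :=
    (hgc.integrableOn_compact (isCompact_closedBall _ _)).mono_set ball_subset_closedBall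
  have hae : (fun z : ℂ => ‖DdU β u a z‖ ^ 2) =ᵐ[volume.restrict (ball (0:ℂ) ρ)] g := by
    have h1 : ∀ᵐ z : ℂ ∂(volume.restrict (ball (0:ℂ) ρ)), z ∈ ball (0:ℂ) ρ :=
      ae_restrict_mem measurableSet_ball
    have h2 : ∀ᵐ z : ℂ ∂(volume.restrict (ball (0:ℂ) ρ)), z ≠ 0 := by
      apply ae_restrict_of_ae
      exact measure_eq_zero_iff_ae_notMem.mp (measure_singleton (μ := (volume : Measure ℂ)) 0)
    have h3 : ∀ᵐ z : ℂ ∂(volume.restrict (ball (0:ℂ) ρ)), z ≠ a := by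
      apply ae_restrict_of_ae
      exact measure_eq_zero_iff_ae_notMem.mp (measure_singleton (μ := (volume : Measure ℂ)) (a:ℂ))
    filter_upwards [h1, h2, h3] with z hz hz0 hza
    have hz1 : z ∈ ball (0:ℂ) 1 := ball_subset_ball hρ.le hz
    rw [hg, DdU, dphi_div h ha1 hz1 ha0 hz0 hza]
    simp only
    rw [(hF z hz1).deriv, Complex.conj_ofReal]
    congr 2
    ring
  refine ⟨hgi.congr hae.symm, ?_⟩
  rw [integral_congr_ae hae, hLF]
  have h4 := energy_u h hu hρ0 hρ ha1 ha0 hF hF0 hexp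
  refine h4.trans (le_of_eq ?_)
  rw [Complex.norm_real, Real.norm_of_nonneg ha.le]

/-- the real part of the logarithm -/
theorem IsLog.re {L : ℂ → ℂ} (hL : IsLog β L) {z : ℂ} (hz : z ∈ ball (0:ℂ) 1) :
    (L z).re = Real.log ‖N β z‖ := by
  rw [← hL.exp z hz, Complex.norm_exp, Real.log_exp]

/-- Goluzin's inequality for `L` -/
theorem IsLog.goluzin (h : Ext β) {L : ℂ → ℂ} (hL : IsLog β L) {z : ℂ} (hz : z ∈ ball (0:ℂ) 1) :
    ‖L z‖ ≤ - Real.log (1 - ‖z‖ ^ 2) :=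
  Pool.Agent.Helper39.Area.goluzin h hL.cont hL.zero hL.exp hz

end Pool.Agent.Helper68.EKC
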