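import Pool.Agent.Helper68.EKC.KOneU
import Pool.Agent.Helper61.EK.GibbsCore
import Pool.Agent.Helper28.EK.E6d
import Pool.Agent.Helper39.Area.Exterior
import Pool.Agent.Helper24.Br.Inj
set_option autoImplicit false
open Complex MeasureTheory Metric Set
open scoped Real ComplexConjugate

/-! EKC: the Gibbs step, the scaling step and the transfer to the class Sigma, for a complex
exponent `t = - κ conj u`. -/

namespace Pool.Agent.Helper68.EKC

open Pool.Agent.Helper39.Area Pool.Agent.Helper52.EK Pool.Agent.Helper9.EK Pool.Agent.Helper61.EK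

theorem IsLog.rot {β L : ℂ → ℂ} (hL : IsLog β L) (α : ℝ) :
    IsLog (rotβ β α) (fun z => L (Complex.exp (α * I) * z)) := by
  refine ⟨?_, ?_, ?_⟩
  · exact hL.cont.comp (by fun_prop) (fun z hz => mem_ball_rot hz)
  · simp only [mul_zero]
    exact hL.zero
  · intro z hz
    rw [rot_N' α]
    exact hL.exp _ (mem_ball_rot hz)

theorem IsLog.scale {β L : ℂ → ℂ} (h : Ext β) (hL : IsLog β L) {ρ : ℝ} (h0 : 0 < ρ)
    (h1 : ρ < 1) : IsLog (fun z => (ρ : ℂ) * β (ρ * z)) (fun z => L (ρ * z)) := by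
  have hm : ∀ z ∈ ball (0:ℂ) 1, (ρ : ℂ) * z ∈ ball (0:ℂ) 1 := by
    intro z hz
    rw [mem_ball_zero_iff] at hz ⊢
    rw [norm_mul, Complex.norm_real, Real.norm_of_nonneg h0.le]
    nlinarith [norm_nonneg z]
  refine ⟨?_, ?_, ?_⟩
  · exact hL.cont.comp (by fun_prop) hm
  · simp only [mul_zero]
    exact hL.zero
  · intro z hz
    rw [Pool.Agent.Helper28.EK.scale_N h.diff (hm z hz)]
    exact hL.exp _ (hm z hz)

theorem circ_mem {a : ℝ} (ha : 0 < a) (ha1 : a < 1) (α : ℝ) :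
    (a * Complex.exp (α * I) : ℂ) ∈ ball (0:ℂ) 1 := by
  rw [mem_ball_zero_iff, norm_mul, Complex.norm_exp_ofReal_mul_I, mul_one, Complex.norm_real,
    Real.norm_eq_abs, abs_of_pos ha]
  exact ha1

theorem L_circ_cont {β L : ℂ → ℂ} (hL : IsLog β L) {a : ℝ} (ha : 0 < a) (ha1 : a < 1) :
    Continuous (fun α : ℝ => L (a * Complex.exp (α * I))) :=
  hL.cont.comp_continuous (by fun_prop) (circ_mem ha ha1)

/-- Gibbs with the complex exponent -/
theorem gibbs_U {κ : ℝ} {u : ℂ} {G : ℂ → ℂ} (hE : EntropyStmt) (hKc : KfContStmt)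
    (hwc : ∀ {β : ℂ → ℂ}, Ext β → ContinuousOn (wf G β) {z | 0 < ‖z‖ ∧ ‖z‖ < 1})
    (hK : ∃ C a₀ : ℝ, a₀ < 1 ∧ ∀ (β L : ℂ → ℂ) (R a : ℝ), ExtR β R → IsLog β L → a₀ < a → a < 1 →
      Kf (wf G β) 1 (-1) (Real.log a) ≤
        κ * (- Real.log (1 - a ^ 2) + (conj u * L a).re) + C) :
    ∃ C a₀ : ℝ, a₀ < 1 ∧ ∀ (β L : ℂ → ℂ) (R a : ℝ), ExtR β R → IsLog β L → a₀ < a → a < 1 →
      (2 * π)⁻¹ * (∫ α in (0:ℝ)..(2 * π),
        Real.exp (-(κ * (conj u * L (a * Complex.exp (α * I))).re))) ≤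
        C * (1 - a ^ 2) ^ (-(κ - 1)) := by
  obtain ⟨C₁, hE⟩ := hE
  obtain ⟨C₂, a₀, ha₀, hK⟩ := hK
  refine ⟨Real.exp (C₁ + C₂), max a₀ (Real.exp (-1)), ?_, ?_⟩
  · apply max_lt ha₀
    rw [Real.exp_lt_one_iff]
    norm_num
  intro β L R a h hL haa ha1
  have ha0 : a₀ < a := (le_max_left _ _).trans_lt haa
  have hae : Real.exp (-1) < a := (le_max_right _ _).trans_lt haa
  have hap : 0 < a := (Real.exp_pos _).trans hae
  have hs : 0 < 1 - a ^ 2 := by nlinarith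
  have hLc := L_circ_cont hL hap ha1
  have hVc : Continuous (fun α : ℝ => κ * (conj u * L (a * Complex.exp (α * I))).re) :=
    continuous_const.mul (Complex.continuous_re.comp (continuous_const.mul hLc))
  have hVp : Function.Periodic (fun α : ℝ => κ * (conj u * L (a * Complex.exp (α * I))).re)
      (2 * π) := by
    intro α
    simp only
    rw [exp_per]
  have hKf : ∀ α : ℝ, Kf (wf G β) (Complex.exp (α * I)) (-1) (Real.log a) ≤
      κ * (conj u * L (a * Complex.exp (α * I))).re + (C₂ - κ * Real.log (1 - a ^ 2)) := by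
    intro α
    rw [rot_Kf' α]
    have h1 := hK (rotβ β α) _ R a (rot_ExtR h α) (hL.rot α) ha0 ha1
    rw [mul_comm (Complex.exp (α * I))] at h1
    linarith
  have h2 := gibbs_core hE hKc (hwc h.toExt) hae ha1 hVc hVp hKf
  refine h2.trans (le_of_eq ?_)
  have e1 : Real.exp (C₁ + (C₂ - κ * Real.log (1 - a ^ 2))) =
      Real.exp (C₁ + C₂) * Real.exp (-(κ * Real.log (1 - a ^ 2))) := by
    rw [← Real.exp_add]
    congr 1
    ring
  rw [e1, mul_assoc]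
  congr 1
  rw [Real.rpow_def_of_pos hs]
  have e2 : (1 - a ^ 2) = Real.exp (Real.log (1 - a ^ 2)) := (Real.exp_log hs).symm
  nth_rewrite 2 [e2]
  rw [← Real.exp_add]
  congr 1
  ring

/-- all radii and all `Ext β`, by scaling -/
theorem moment_U {κ : ℝ} (hκ : 1 ≤ κ) {u : ℂ} (hu : ‖u‖ = 1)
    (hM : ∃ C a₀ : ℝ, a₀ < 1 ∧ ∀ (β L : ℂ → ℂ) (R a : ℝ), ExtR β R → IsLog β L → a₀ < a → a < 1 →
      (2 * π)⁻¹ * (∫ α in (0:ℝ)..(2 * π),
        Real.exp (-(κ * (conj u * L (a * Complex.exp (α * I))).re))) ≤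
        C * (1 - a ^ 2) ^ (-(κ - 1))) :
    ∃ C : ℝ, ∀ (β L : ℂ → ℂ) (r : ℝ), Ext β → IsLog β L → 0 < r → r < 1 →
      (2 * π)⁻¹ * (∫ α in (0:ℝ)..(2 * π),
        Real.exp (-(κ * (conj u * L (r * Complex.exp (α * I))).re))) ≤
        C * (1 - r ^ 2) ^ (-(κ - 1)) := by
  obtain ⟨C₀, a₀, ha₀, hM⟩ := hM
  obtain ⟨C₁, hC₁⟩ : ∃ C₁ : ℝ, C₁ = |C₀| * 2 ^ (κ - 1) := ⟨_, rfl⟩
  have hC₁0 : 0 ≤ C₁ := by rw [hC₁]; positivity
  obtain ⟨b, hb⟩ : ∃ b : ℝ, b = max a₀ 0 := ⟨_, rfl⟩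
  have hb0 : 0 ≤ b := by rw [hb]; exact le_max_right _ _
  have hb1 : b < 1 := by rw [hb]; exact max_lt ha₀ one_pos
  have hab : a₀ ≤ b := by rw [hb]; exact le_max_left _ _
  have h1b : 0 < 1 - b ^ 2 := by nlinarith
  obtain ⟨C₂, hC₂⟩ : ∃ C₂ : ℝ, C₂ = Real.exp (κ * (-Real.log (1 - b ^ 2))) := ⟨_, rfl⟩
  have hC₂0 : 0 ≤ C₂ := by rw [hC₂]; positivity
  refine ⟨C₁ + C₂, ?_⟩
  intro β L r hβ hL hr0 hr1
  have hπ : 0 < 2 * π := by positivity
  have h1r : 0 < 1 - r ^ 2 := by nlinarith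
  have h1r1 : 1 - r ^ 2 ≤ 1 := by nlinarith
  have hpow1 : 1 ≤ (1 - r ^ 2) ^ (-(κ - 1)) :=
    Real.one_le_rpow_of_pos_of_le_one_of_nonpos h1r h1r1 (by linarith)
  rcases le_or_gt r b with hrb | hrb
  · -- small radius
    have hle : ∀ α : ℝ, Real.exp (-(κ * (conj u * L (r * Complex.exp (α * I))).re)) ≤ C₂ := by
      intro α
      rw [hC₂]
      apply Real.exp_le_exp.mpr
      have h2 := hL.goluzin hβ (circ_mem hr0 hr1 α)
      rw [norm_mul, Complex.norm_exp_ofReal_mul_I, mul_one, Complex.norm_real,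
        Real.norm_of_nonneg hr0.le] at h2
      have h3 : Real.log (1 - b ^ 2) ≤ Real.log (1 - r ^ 2) :=
        Real.log_le_log h1b (by nlinarith)
      have h4 : -(conj u * L (r * Complex.exp (α * I))).re ≤
          ‖L (r * Complex.exp (α * I))‖ := by
        have h5 := Complex.abs_re_le_norm (conj u * L (r * Complex.exp (α * I)))
        rw [norm_mul, RCLike.norm_conj, hu, one_mul] at h5
        exact (neg_le_abs _).trans h5
      have h6 : -(conj u * L (r * Complex.exp (α * I))).re ≤ -Real.log (1 - b ^ 2) := by linarith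
      nlinarith
    have hcont : IntervalIntegrable (fun α : ℝ =>
        Real.exp (-(κ * (conj u * L (r * Complex.exp (α * I))).re))) volume 0 (2 * π) := by
      apply Continuous.intervalIntegrable
      exact Real.continuous_exp.comp (continuous_const.mul
        (Complex.continuous_re.comp (continuous_const.mul (L_circ_cont hL hr0 hr1)))).neg
    have hint : (∫ α in (0:ℝ)..(2 * π),
        Real.exp (-(κ * (conj u * L (r * Complex.exp (α * I))).re))) ≤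
        ∫ _α in (0:ℝ)..(2 * π), C₂ :=
      intervalIntegral.integral_mono_on hπ.le hcont intervalIntegrable_const (fun α _ => hle α)
    rw [intervalIntegral.integral_const, smul_eq_mul, sub_zero] at hint
    have h3 := mul_le_mul_of_nonneg_left hint (inv_pos.mpr hπ).le
    rw [inv_mul_cancel_left₀ hπ.ne'] at h3
    calc _ ≤ C₂ := h3
      _ ≤ C₂ * (1 - r ^ 2) ^ (-(κ - 1)) := le_mul_of_one_le_right hC₂0 hpow1
      _ ≤ (C₁ + C₂) * (1 - r ^ 2) ^ (-(κ - 1)) :=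
          mul_le_mul_of_nonneg_right (by linarith) (by positivity)
  · -- scaling
    have hex : ∃ ρ : ℝ, r < ρ ∧ ρ < 1 ∧ b < r / ρ ∧ (1 - r ^ 2) / 2 ≤ 1 - (r / ρ) ^ 2 := by
      have hcts : Filter.Tendsto (fun ρ : ℝ => r / ρ) (nhdsWithin 1 (Iio 1)) (nhds r) := by
        have h2 : ContinuousAt (fun ρ : ℝ => r / ρ) 1 :=
          continuousAt_const.div continuousAt_id one_ne_zero
        have h3 := h2.tendsto
        simp only [div_one] at h3
        exact h3.mono_left nhdsWithin_le_nhds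
      have hcts2 : Filter.Tendsto (fun ρ : ℝ => 1 - (r / ρ) ^ 2) (nhdsWithin 1 (Iio 1))
          (nhds (1 - r ^ 2)) := (hcts.pow 2).const_sub 1
      have e1 : ∀ᶠ ρ in nhdsWithin (1:ℝ) (Iio 1), b < r / ρ := hcts.eventually_const_lt hrb
      have e2 : ∀ᶠ ρ in nhdsWithin (1:ℝ) (Iio 1), (1 - r ^ 2) / 2 < 1 - (r / ρ) ^ 2 :=
        hcts2.eventually_const_lt (by linarith)
      have e3 : ∀ᶠ ρ in nhdsWithin (1:ℝ) (Iio 1), r < ρ :=
        (eventually_gt_nhds hr1).filter_mono nhdsWithin_le_nhds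
      have e4 : ∀ᶠ ρ in nhdsWithin (1:ℝ) (Iio 1), ρ < 1 := eventually_mem_nhdsWithin
      obtain ⟨ρ, h4, h5, h6, h7⟩ := (e1.and (e2.and (e3.and e4))).exists
      exact ⟨ρ, h6, h7, h4, h5.le⟩
    obtain ⟨ρ, hrρ, hρ1, hbρ, hhalf⟩ := hex
    have hρ0 : 0 < ρ := hr0.trans hrρ
    have ha1 : r / ρ < 1 := by rw [div_lt_one hρ0]; exact hrρ
    have ha0 : 0 < r / ρ := by positivity
    have h2 := hM _ _ _ (r / ρ) (Pool.Agent.Helper28.EK.scale_ExtR hβ hρ0 hρ1)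
      (hL.scale hβ hρ0 hρ1) (lt_of_le_of_lt hab hbρ) ha1
    have hLeq : ∀ α : ℝ, (ρ : ℂ) * (((r / ρ : ℝ) : ℂ) * Complex.exp (α * I)) =
        r * Complex.exp (α * I) := by
      intro α
      have hρC : (ρ : ℂ) ≠ 0 := by exact_mod_cast hρ0.ne'
      push_cast
      field_simp
    simp only [hLeq] at h2
    have hκm1 : 0 ≤ κ - 1 := by linarith
    have h3 : (1 - (r / ρ) ^ 2) ^ (-(κ - 1)) ≤ 2 ^ (κ - 1) * (1 - r ^ 2) ^ (-(κ - 1)) := by
      have h4 : (1 - (r / ρ) ^ 2) ^ (-(κ - 1)) ≤ ((1 - r ^ 2) / 2) ^ (-(κ - 1)) :=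
        Real.rpow_le_rpow_of_nonpos (by linarith) hhalf (by linarith)
      refine h4.trans (le_of_eq ?_)
      rw [Real.div_rpow h1r.le (by norm_num), Real.rpow_neg (by norm_num : (0:ℝ) ≤ 2), div_inv_eq_mul,
        mul_comm]
    have h6 : 0 < 1 - (r / ρ) ^ 2 := by linarith
    calc _ ≤ C₀ * (1 - (r / ρ) ^ 2) ^ (-(κ - 1)) := h2
      _ ≤ |C₀| * (1 - (r / ρ) ^ 2) ^ (-(κ - 1)) :=
          mul_le_mul_of_nonneg_right (le_abs_self _) (by positivity)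
      _ ≤ |C₀| * (2 ^ (κ - 1) * (1 - r ^ 2) ^ (-(κ - 1))) :=
          mul_le_mul_of_nonneg_left h3 (abs_nonneg _)
      _ = C₁ * (1 - r ^ 2) ^ (-(κ - 1)) := by rw [hC₁]; ring
      _ ≤ (C₁ + C₂) * (1 - r ^ 2) ^ (-(κ - 1)) :=
          mul_le_mul_of_nonneg_right (by linarith) (by positivity)

/-- the class Sigma -/
theorem final_U {κ : ℝ} {u : ℂ} (hM : ∃ C : ℝ, ∀ (β L : ℂ → ℂ) (r : ℝ), Ext β → IsLog β L →
      0 < r → r < 1 → (2 * π)⁻¹ * (∫ α in (0:ℝ)..(2 * π),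
        Real.exp (-(κ * (conj u * L (r * Complex.exp (α * I))).re))) ≤
        C * (1 - r ^ 2) ^ (-(κ - 1))) :
    ∃ C : ℝ, ∀ ψ h : ℂ → ℂ, DifferentiableOn ℂ ψ {z : ℂ | 1 < ‖z‖} →
      InjOn ψ {z : ℂ | 1 < ‖z‖} →
      (∃ b : ℂ, Filter.Tendsto (fun z => ψ z - z) (Bornology.cobounded ℂ) (nhds b)) →
      DifferentiableOn ℂ h {z : ℂ | 1 < ‖z‖} →
      (∀ z : ℂ, 1 < ‖z‖ → Complex.exp (h z) = deriv ψ z) →
      Filter.Tendsto h (Bornology.cobounded ℂ) (nhds 0) →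
      ∀ R : ℝ, 1 < R →
      (2 * π)⁻¹ * (∫ θ in (0:ℝ)..(2 * π),
        Real.exp (-(κ * (conj u * h (R * Complex.exp (θ * I))).re))) ≤
        C * (R ^ 2 / (R ^ 2 - 1)) ^ (κ - 1) := by
  obtain ⟨C, hC⟩ := hM
  refine ⟨C, ?_⟩
  rintro ψ h hψ hinj ⟨b, hb⟩ hh hexp hh0 R hR
  have hR0 : 0 < R := by linarith
  obtain ⟨hE, hex⟩ := ext_data hψ hinj hb hexp
  have hr0 : 0 < R⁻¹ := by positivity
  have hr1 : R⁻¹ < 1 := inv_lt_one_of_one_lt₀ hR
  have hLog : IsLog (toDisc b (fun z => ψ z - z)) (toDisc 0 h) :=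
    ⟨(toDisc_diff hh hh0).continuousOn, by simp [toDisc], hex⟩
  have hmain := hC _ _ R⁻¹ hE hLog hr0 hr1
  obtain ⟨k, hk⟩ : ∃ k : ℝ → ℝ, k = fun (α : ℝ) =>
    Real.exp (-(κ * (conj u * toDisc 0 h (((R⁻¹ : ℝ) : ℂ) * Complex.exp (α * I))).re)) :=
    ⟨_, rfl⟩
  have h1 : ∀ θ : ℝ, Real.exp (-(κ * (conj u * h (R * Complex.exp (θ * I))).re)) = k (-θ) := by
    intro θ
    have hne0 : ((R⁻¹ : ℝ) : ℂ) * Complex.exp (((-θ : ℝ) : ℂ) * I) ≠ 0 := by
      apply mul_ne_zero _ (Complex.exp_ne_zero _)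
      exact_mod_cast inv_ne_zero hR0.ne'
    have h2 : (((R⁻¹ : ℝ) : ℂ) * Complex.exp (((-θ : ℝ) : ℂ) * I))⁻¹ =
        (R : ℂ) * Complex.exp ((θ : ℂ) * I) := by
      rw [mul_inv, ← Complex.exp_neg]
      push_cast
      rw [inv_inv]
      congr 2
      ring
    simp only [hk, toDisc]
    rw [if_neg hne0, h2]
  simp_rw [h1]
  rw [intervalIntegral.integral_comp_neg (fun θ => k θ)]
  have hper : Function.Periodic k (2 * π) := by
    intro θ
    simp only [hk]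
    rw [exp_per]
  have h2 := hper.intervalIntegral_add_eq (-(2 * π)) 0
  have e1 : -(2 * π) + 2 * π = (0:ℝ) := by ring
  have e2 : (0:ℝ) + 2 * π = 2 * π := by ring
  rw [e1, e2] at h2
  rw [neg_zero, h2]
  have hRR : 0 < R ^ 2 - 1 := by nlinarith
  have hx : (1 - R⁻¹ ^ 2) ^ (-(κ - 1)) = (R ^ 2 / (R ^ 2 - 1)) ^ (κ - 1) := by
    have h3 : 1 - R⁻¹ ^ 2 = (R ^ 2 / (R ^ 2 - 1))⁻¹ := by
      rw [inv_pow]
      field_simp
    rw [h3, Real.inv_rpow (by positivity), Real.rpow_neg (by positivity), inv_inv]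
  rw [hx] at hmain
  rw [hk]
  exact hmain

end Pool.Agent.Helper68.EKC
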