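import Pool.Agent.Helper79.EK.GcLip
set_option autoImplicit false
open Complex MeasureTheory Metric Set
open scoped Real ComplexConjugate

/-! EKC: the field function for the direction `u`. -/

namespace Pool.Agent.Helper68.EKC

open Pool.Agent.Helper52.EK Pool.Agent.Helper79.EK

/-- the field function for the direction `u` -/
noncomputable def Gu (u m : ℂ) : ℂ := Gc (conj u * (m + 1) - 1)

theorem Gc_far {p q : ℂ} (hp : 1 ≤ ‖p‖) (hq : 1 ≤ ‖q‖) :
    ‖Gc p - Gc q‖ ≤ ‖p - q‖ / (‖p‖ * ‖q‖) := by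
  have hp0 : 0 < ‖p‖ := by linarith
  have hq0 : 0 < ‖q‖ := by linarith
  have hp2 : (0:ℝ) < ‖p‖ ^ 2 := by positivity
  have hq2 : (0:ℝ) < ‖q‖ ^ 2 := by positivity
  have h1 := sq_norm_sub_div p q hp2 hq2
  have h2 := sq_norm_sub_div p q (p := 1) (q := 1) one_pos one_pos
  simp only [ofReal_one, div_one, one_pow, mul_one] at h2
  have hG : Gc p - Gc q = p / ((‖p‖ ^ 2 : ℝ) : ℂ) - q / ((‖q‖ ^ 2 : ℝ) : ℂ) := by
    unfold Gc
    rw [max_eq_right (by nlinarith), max_eq_right (by nlinarith)]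
  refine le_of_sq_le_sq ?_ (by positivity)
  rw [hG, h1, div_pow, h2]
  apply le_of_eq
  field_simp
  ring

theorem Gu_lip {u : ℂ} (hu : ‖u‖ = 1) : GLip (Gu u) 4 where
  le_one := fun m => norm_Gc_le _
  lip := fun m m' => by
    refine (Gc_sub_le _ _).trans ?_
    have e : conj u * (m + 1) - 1 - (conj u * (m' + 1) - 1) = conj u * (m - m') := by ring
    rw [e, norm_mul, RCLike.norm_conj, hu, one_mul]
    have := norm_nonneg (m - m')
    linarith
  rot := fun v m hv => by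
    set p : ℂ := conj u * (v * m + 1) - 1 with hp
    set q : ℂ := conj u * (m + 1) - 1 with hq
    have hpq : ‖p - q‖ = ‖m‖ * ‖v - 1‖ := by
      have e : p - q = conj u * (m * (v - 1)) := by rw [hp, hq]; ring
      rw [e, norm_mul, RCLike.norm_conj, hu, one_mul, norm_mul]
    have hv0 := norm_nonneg (v - 1)
    have hm0 := norm_nonneg m
    show ‖Gc p - Gc q‖ ≤ 4 * ‖v - 1‖
    rcases le_or_gt ‖m‖ 4 with hm | hm
    · refine (Gc_sub_le _ _).trans ?_
      rw [hpq]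
      exact mul_le_mul_of_nonneg_right hm hv0
    · have hlow : ∀ w : ℂ, ‖w‖ = ‖m‖ → ‖m‖ / 2 ≤ ‖conj u * (w + 1) - 1‖ := by
        intro w hw
        have h1 : ‖conj u * w‖ = ‖m‖ := by rw [norm_mul, RCLike.norm_conj, hu, one_mul, hw]
        have h2 : ‖(1 : ℂ) - conj u‖ ≤ 2 := by
          refine (norm_sub_le _ _).trans ?_
          rw [norm_one, RCLike.norm_conj, hu]
          norm_num
        have h3 : conj u * (w + 1) - 1 = conj u * w - (1 - conj u) := by ring
        have h4 := norm_sub_norm_le (conj u * w) (1 - conj u)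
        rw [h3]
        linarith
      have hp1 : ‖m‖ / 2 ≤ ‖p‖ := hlow (v * m) (by rw [norm_mul, hv, one_mul])
      have hq1 : ‖m‖ / 2 ≤ ‖q‖ := hlow m rfl
      refine (Gc_far (by linarith) (by linarith)).trans ?_
      rw [hpq, div_le_iff₀ (by nlinarith)]
      have h5 : ‖m‖ / 2 * (‖m‖ / 2) ≤ ‖p‖ * ‖q‖ :=
        mul_le_mul hp1 hq1 (by linarith) (by linarith)
      have h6 : ‖m‖ ≤ 4 * (‖p‖ * ‖q‖) := by nlinarith
      calc ‖m‖ * ‖v - 1‖ ≤ (4 * (‖p‖ * ‖q‖)) * ‖v - 1‖ := mul_le_mul_of_nonneg_right h6 hv0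
        _ = 4 * ‖v - 1‖ * (‖p‖ * ‖q‖) := by ring

end Pool.Agent.Helper68.EKC
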