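import Pool.Agent.Helper68.EKC.GibbsU
import Pool.Agent.Helper68.EKC.Gu
import Pool.Agent.Helper61.EK.Gibbs
set_option autoImplicit false
open Complex MeasureTheory Metric Set
open scoped Real ComplexConjugate

/-! EKC: the moment bound for a complex exponent `t`, from the strip inequality. -/

namespace Pool.Agent.Helper68.EKC

open Pool.Agent.Helper39.Area Pool.Agent.Helper52.EK

/-- the moment bound on the class Sigma for `t = - κ conj u`, from the strip inequality -/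
theorem sigma_of_strip {κ κ' : ℝ} {u : ℂ} (hu : ‖u‖ = 1) (hal : (1 + u) / 2 ≠ 0) (hκ : 1 ≤ κ)
    (h0 : 0 ≤ κ')
    (hS : StripIneq κ' (fun X Y s c => TG (Gu u) ((1 + u) / 2 * X) ((1 + u) / 2 * Y) s c))
    (hlt : κ' < 2 * κ * ‖(1 + u) / 2‖ ^ 2) :
    ∃ C : ℝ, ∀ ψ h : ℂ → ℂ, DifferentiableOn ℂ ψ {z : ℂ | 1 < ‖z‖} →
      InjOn ψ {z : ℂ | 1 < ‖z‖} →
      (∃ b : ℂ, Filter.Tendsto (fun z => ψ z - z) (Bornology.cobounded ℂ) (nhds b)) →
      DifferentiableOn ℂ h {z : ℂ | 1 < ‖z‖} →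
      (∀ z : ℂ, 1 < ‖z‖ → Complex.exp (h z) = deriv ψ z) →
      Filter.Tendsto h (Bornology.cobounded ℂ) (nhds 0) →
      ∀ R : ℝ, 1 < R →
      (2 * π)⁻¹ * (∫ θ in (0:ℝ)..(2 * π),
        Real.exp (-(κ * (conj u * h (R * Complex.exp (θ * I))).re))) ≤
        C * (R ^ 2 / (R ^ 2 - 1)) ^ (κ - 1) := by
  have hn : 0 < ‖(1 + u) / 2‖ ^ 2 := by
    have := norm_pos_iff.mpr hal
    positivity
  have h1 : StripA (κ' / ‖(1 + u) / 2‖ ^ 2) ((1 + u) / 2) (TG (Gu u)) := strip_scale hal hS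
  have h2 : κ' / ‖(1 + u) / 2‖ ^ 2 < 2 * κ := by
    rw [div_lt_iff₀ hn]
    exact hlt
  have h3 := K_one_U (Gu_lip hu) hu h1 (div_nonneg h0 hn.le) h2
  have h4 := gibbs_U Pool.Agent.Helper61.EK.entropyStmt Pool.Agent.Helper61.EK.kfContStmt
    (fun {β} hβ => Pool.Agent.Helper70.EK.wf_cont (Gu_lip hu) hβ) h3
  exact final_U (moment_U hκ hu h4)

/-- the same in terms of `t` -/
theorem sigma_of_strip_t {t : ℂ} {κ' : ℝ} (ht : 1 ≤ ‖t‖) (h0 : 0 ≤ κ')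
    (hS : StripIneq κ' (fun X Y s c => TG (Gu (-(conj t / ‖t‖)))
      ((1 + -(conj t / ‖t‖)) / 2 * X) ((1 + -(conj t / ‖t‖)) / 2 * Y) s c))
    (hlt : κ' < ‖t‖ - t.re) :
    ∃ C : ℝ, ∀ ψ h : ℂ → ℂ, DifferentiableOn ℂ ψ {z : ℂ | 1 < ‖z‖} →
      InjOn ψ {z : ℂ | 1 < ‖z‖} →
      (∃ b : ℂ, Filter.Tendsto (fun z => ψ z - z) (Bornology.cobounded ℂ) (nhds b)) →
      DifferentiableOn ℂ h {z : ℂ | 1 < ‖z‖} →
      (∀ z : ℂ, 1 < ‖z‖ → Complex.exp (h z) = deriv ψ z) →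
      Filter.Tendsto h (Bornology.cobounded ℂ) (nhds 0) →
      ∀ R : ℝ, 1 < R →
      (2 * π)⁻¹ * (∫ θ in (0:ℝ)..(2 * π), ‖Complex.exp (t * h (R * Complex.exp (θ * I)))‖) ≤
        C * (R ^ 2 / (R ^ 2 - 1)) ^ (‖t‖ - 1) := by
  have hn0 : 0 < ‖t‖ := by linarith
  have hnC : (‖t‖ : ℂ) ≠ 0 := by exact_mod_cast hn0.ne'
  set u : ℂ := -(conj t / ‖t‖) with hu
  have hu1 : ‖u‖ = 1 := by
    rw [hu, norm_neg, norm_div, RCLike.norm_conj, Complex.norm_real, norm_norm, div_self hn0.ne']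
  have hre : u.re = -(t.re / ‖t‖) := by
    rw [hu, Complex.neg_re, Complex.div_ofReal_re, Complex.conj_re]
  have hal2 : ‖(1 + u) / 2‖ ^ 2 = (‖t‖ - t.re) / (2 * ‖t‖) := by
    have h1 : ‖(1 + u) / 2‖ ^ 2 = (1 + u.re) / 2 := by
      have h2 : u.re * u.re + u.im * u.im = 1 := by
        rw [← Complex.normSq_apply, Complex.normSq_eq_norm_sq, hu1, one_pow]
      rw [norm_div, div_pow, Complex.sq_norm, Complex.normSq_apply]
      simp only [Complex.add_re, Complex.add_im, Complex.one_re, Complex.one_im, zero_add]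
      have h3 : ‖(2:ℂ)‖ = 2 := by simp
      rw [h3]
      nlinarith
    rw [h1, hre]
    field_simp
    ring
  have hpos : 0 < ‖t‖ - t.re := by linarith
  have hal : (1 + u) / 2 ≠ 0 := by
    intro h
    rw [h, norm_zero] at hal2
    have : 0 < (‖t‖ - t.re) / (2 * ‖t‖) := by positivity
    rw [← hal2] at this
    norm_num at this
  have hlt' : κ' < 2 * ‖t‖ * ‖(1 + u) / 2‖ ^ 2 := by
    rw [hal2]
    have : 2 * ‖t‖ * ((‖t‖ - t.re) / (2 * ‖t‖)) = ‖t‖ - t.re := by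
      field_simp
    rw [this]
    exact hlt
  obtain ⟨C, hC⟩ := sigma_of_strip hu1 hal ht h0 hS hlt'
  refine ⟨C, fun ψ h a1 a2 a3 a4 a5 a6 R hR => ?_⟩
  have h5 := hC ψ h a1 a2 a3 a4 a5 a6 R hR
  have h6 : ∀ z : ℂ, ‖Complex.exp (t * h z)‖ = Real.exp (-(‖t‖ * (conj u * h z).re)) := by
    intro z
    rw [Complex.norm_exp]
    congr 1
    have h7 : t = -((‖t‖ : ℂ) * conj u) := by
      rw [hu, map_neg, map_div₀, Complex.conj_conj, Complex.conj_ofReal]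
      field_simp
    have h8 : t * h z = -((‖t‖ : ℂ) * (conj u * h z)) := by
      conv_lhs => rw [h7]
      ring
    rw [h8, Complex.neg_re, Complex.re_ofReal_mul]
  simp only [h6]
  exact h5

end Pool.Agent.Helper68.EKC
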