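import Pool.Agent.Helper39.Area.GolMain
import Pool.Agent.Helper39.EK.AreaForm

/-!
The energy of the logarithm of a difference with a unimodular factor `u` (after helper39).
-/

set_option autoImplicit false

open Complex MeasureTheory Metric Set Filter Topology
open scoped Real ENNReal ComplexConjugate NNReal

namespace Pool.Agent.Helper68.EKC

open Pool.Agent.Helper39.Area Pool.Agent.Helper39.EK

variable {β : ℂ → ℂ}

theorem energy_aux_u (h : Ext β) {u : ℂ} (hu : ‖u‖ = 1) {ρ : ℝ} (hρ : 0 < ρ) (hρ1 : ρ < 1)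
    {a : ℂ} (ha : a ∈ ball (0:ℂ) ρ) (ha0 : a ≠ 0) {F : ℂ → ℂ}
    (hF : ∀ ζ ∈ ball (0:ℂ) 1, HasDerivAt F (deriv (qq β a) ζ / qq β a ζ) ζ)
    (hF0 : F 0 = 0) (hexp : ∀ ζ ∈ ball (0:ℂ) 1, Complex.exp (F ζ) = qq β a ζ) :
    ∃ c2 : ℝ, c2 ≤ 2 * (- Real.log (1 - ‖a‖ ^ 2 / ρ ^ 2)) + 2 * (conj u * F a).re ∧
      ∀ N : ℕ, ∑ n ∈ Finset.range N, (n:ℝ) * ρ ^ (2 * n) *
        ‖iteratedDeriv n (fun ζ => F ζ - u * Lam ρ a ζ) 0 / n.factorial‖ ^ 2 ≤ c2 := by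
  have ha1 : a ∈ ball (0:ℂ) 1 := mem_ball_of_sphere hρ1 (ball_subset_closedBall ha)
  have hapos : 0 < ‖a‖ := norm_pos_iff.mpr ha0
  have haρ : ‖a‖ < ρ := by simpa using ha
  set Q : ℂ → ℂ := fun ζ => deriv (qq β a) ζ / qq β a ζ with hQ
  set R : ℝ := min 1 (ρ ^ 2 / ‖a‖) with hR
  have hρR : ρ < R := lt_min hρ1 (rad_lt hρ ha ha0)
  have hR1 : ball (0:ℂ) R ⊆ ball 0 1 := ball_subset_ball (min_le_left _ _)
  have hR2 : ball (0:ℂ) R ⊆ ball 0 (ρ ^ 2 / ‖a‖) := ball_subset_ball (min_le_right _ _)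
  have hsR : sphere (0:ℂ) ρ ⊆ ball 0 R := by
    intro ζ hζ
    rw [mem_ball, dist_zero_right]
    rw [mem_sphere, dist_zero_right] at hζ
    linarith
  have hFd : DifferentiableOn ℂ F (ball 0 R) := fun ζ hζ =>
    (hF ζ (hR1 hζ)).differentiableAt.differentiableWithinAt
  have hQd : DifferentiableOn ℂ Q (ball 0 R) := by
    have h1 : DifferentiableOn ℂ (deriv F) (ball 0 R) := hFd.deriv isOpen_ball
    apply h1.congr
    intro ζ hζ
    exact (hF ζ (hR1 hζ)).deriv.symm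
  have hLd : DifferentiableOn ℂ (Lam ρ a) (ball 0 R) := (lam_diff hρ ha ha0).mono hR2
  have hLpd : DifferentiableOn ℂ (Lamp ρ a) (ball 0 R) := by
    have h1 : DifferentiableOn ℂ (deriv (Lam ρ a)) (ball 0 R) := hLd.deriv isOpen_ball
    apply h1.congr
    intro ζ hζ
    exact (lam_hasDeriv hρ ha ha0 (hR2 hζ)).deriv.symm
  have hFc : ContinuousOn F (sphere 0 ρ) := hFd.continuousOn.mono hsR
  have hQc : ContinuousOn Q (sphere 0 ρ) := hQd.continuousOn.mono hsR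
  have hLc : ContinuousOn (Lam ρ a) (sphere 0 ρ) := hLd.continuousOn.mono hsR
  have hLpc : ContinuousOn (Lamp ρ a) (sphere 0 ρ) := hLpd.continuousOn.mono hsR
  have hgpc : ContinuousOn (gp a) (sphere 0 ρ) := gp_cont ha hρ
  set G : ℂ → ℂ := fun ζ => Complex.log (1 - a / ζ) with hG
  have hGc : ContinuousOn G (sphere 0 ρ) := fun ζ hζ =>
    (g_hasDeriv ha hρ hζ).continuousAt.continuousWithinAt
  have hcFc : ContinuousOn (fun ζ => conj (F ζ)) (sphere 0 ρ) :=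
    Complex.continuous_conj.comp_continuousOn hFc
  have hFs : ∀ ζ ∈ sphere (0:ℂ) ρ, HasDerivAt F (Q ζ) ζ := fun ζ hζ => hF ζ (hR1 (hsR hζ))
  have hLs : ∀ ζ ∈ sphere (0:ℂ) ρ, HasDerivAt (Lam ρ a) (Lamp ρ a ζ) ζ := fun ζ hζ =>
    lam_hasDeriv hρ ha ha0 (hR2 (hsR hζ))
  have hGs : ∀ ζ ∈ sphere (0:ℂ) ρ, HasDerivAt G (gp a ζ) ζ := fun ζ hζ => g_hasDeriv ha hρ hζ
  have hGL : ∀ ζ ∈ sphere (0:ℂ) ρ, conj (Lam ρ a ζ) = G ζ := fun ζ hζ => conj_lam hρ ha ha0 hζ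
  set ℓ : ℝ := - Real.log (1 - ‖a‖ ^ 2 / ρ ^ 2) with hℓ
  have hfrac : 0 < ‖a‖ ^ 2 / ρ ^ 2 := by positivity
  have hfrac1 : ‖a‖ ^ 2 / ρ ^ 2 < 1 := by
    rw [div_lt_one (by positivity)]
    exact pow_lt_pow_left₀ haρ hapos.le two_ne_zero
  have hℓpos : 0 < ℓ := by
    rw [hℓ, neg_pos]
    exact Real.log_neg (by linarith) (by linarith)
  have hLa : Lam ρ a a = -(ℓ:ℂ) := by
    rw [lam_self hρ ha, hℓ]; push_cast; ring
  have hL0 : Lam ρ a 0 = 0 := lam_zero ρ a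
  -- the basic integrals
  have I3 : (∮ ζ in C(0, ρ), G ζ * Q ζ) = -(2 * π * I * F a) := by
    rw [parts hρ hGs hFs hgpc hQc, repro hρ hρR hFd ha, hF0, sub_zero]
  have I4 : (∮ ζ in C(0, ρ), G ζ * gp a ζ) = 0 := by
    have h1 := parts hρ hGs hGs hgpc hgpc
    have h2 : (2:ℂ) * (∮ ζ in C(0, ρ), G ζ * gp a ζ) = 0 := by linear_combination h1
    simpa using h2
  obtain ⟨A, hA0, hA⟩ := dirichlet_nonneg hFd hρ hρR
  have I5 : (∮ ζ in C(0, ρ), conj (F ζ) * Q ζ) = 2 * π * I * A := by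
    rw [← hA]
    apply circleIntegral.integral_congr hρ.le
    intro ζ hζ
    simp only
    rw [(hFs ζ hζ).deriv]
  have I6 : (∮ ζ in C(0, ρ), conj (F ζ) * gp a ζ) = 0 := by
    have h1 := conj_circle hρ (fun ζ => conj (F ζ) * gp a ζ)
    have h2 : (∮ ζ in C(0, ρ), (-((ρ:ℂ) ^ 2 / ζ ^ 2)) * conj (conj (F ζ) * gp a ζ)) =
        ∮ ζ in C(0, ρ), F ζ * Lamp ρ a ζ := by
      apply circleIntegral.integral_congr hρ.le
      intro ζ hζ
      simp only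
      rw [map_mul, Complex.conj_conj, ← lamp_eq hρ ha ha0 hζ]
      ring
    have hz : (∮ ζ in C(0, ρ), F ζ * Lamp ρ a ζ) = 0 := cauchy_zero hρ hρR (hFd.mul hLpd)
    rw [h2, hz] at h1
    simpa using h1
  have I7 : (∮ ζ in C(0, ρ), conj (F ζ) * Lamp ρ a ζ) = -(2 * π * I * conj (F a)) := by
    have h1 := conj_circle hρ (fun ζ => conj (F ζ) * Lamp ρ a ζ)
    have h2 : (∮ ζ in C(0, ρ), (-((ρ:ℂ) ^ 2 / ζ ^ 2)) * conj (conj (F ζ) * Lamp ρ a ζ)) =
        ∮ ζ in C(0, ρ), F ζ * gp a ζ := by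
      apply circleIntegral.integral_congr hρ.le
      intro ζ hζ
      simp only
      rw [map_mul, Complex.conj_conj, ← gp_eq hρ ha ha0 hζ]
      ring
    rw [h2, repro hρ hρR hFd ha, hF0, sub_zero] at h1
    have h3 := congrArg conj h1
    rw [Complex.conj_conj] at h3
    rw [h3]
    simp only [map_mul, Complex.conj_ofReal, Complex.conj_I, map_ofNat]
    ring
  have I8 : (∮ ζ in C(0, ρ), G ζ * Lamp ρ a ζ) = 2 * π * I * ℓ := by
    rw [parts hρ hGs hLs hgpc hLpc, repro hρ hρR hLd ha, hLa, hL0]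
    ring
  -- the area inequality
  obtain ⟨c, hc0, hc⟩ := area_log h hρ hρ1 ha ha0
  set c0 : ℂ := ((-2 * Real.log ‖a‖ : ℝ) : ℂ) with hc0'
  have hW : DifferentiableOn ℂ (fun ζ => c0 + Lam ρ a ζ + F ζ) (ball 0 R) :=
    ((differentiableOn_const c0).add hLd).add hFd
  have hWc : ContinuousOn (fun ζ => c0 + Lam ρ a ζ + F ζ) (sphere 0 ρ) := hW.continuousOn.mono hsR
  have I1 : (∮ ζ in C(0, ρ), (c0 + Lam ρ a ζ + F ζ) * Q ζ) = 0 :=
    cauchy_zero hρ hρR (hW.mul hQd)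
  have I2 : (∮ ζ in C(0, ρ), (c0 + Lam ρ a ζ + F ζ) * gp a ζ) = 2 * π * I * (F a - ℓ) := by
    rw [repro hρ hρR hW ha, hLa, hL0, hF0]
    ring
  have hJ : (∮ ζ in C(0, ρ), ((2 * Real.log ‖phi β ζ - phi β a‖ : ℝ) : ℂ) *
      (dphi β ζ / (phi β ζ - phi β a))) =
      ∮ ζ in C(0, ρ), ((((((c0 + Lam ρ a ζ + F ζ) * Q ζ) + ((c0 + Lam ρ a ζ + F ζ) * gp a ζ)) +
        (G ζ * Q ζ)) + (G ζ * gp a ζ)) + (conj (F ζ) * Q ζ)) + (conj (F ζ) * gp a ζ) := by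
    apply circleIntegral.integral_congr hρ.le
    intro ζ hζ
    have hζ1 : ζ ∈ ball (0:ℂ) 1 := hR1 (hsR hζ)
    have hζ0 : ζ ≠ 0 := sphere_ne' hρ hζ
    have hne : ζ ≠ a := by
      rintro rfl
      simp at hζ
      linarith
    have h1 : ((2 * Real.log ‖phi β ζ - phi β a‖ : ℝ) : ℂ) =
        c0 + Lam ρ a ζ + F ζ + G ζ + conj (F ζ) := by
      have h2 : phi β ζ - phi β a = -a⁻¹ * (1 - a / ζ) * qq β a ζ := by
        rw [phi_sub a ζ ha0 hζ0]
        field_simp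
        ring
      have h3 : (1 - a / ζ) ≠ 0 := by
        intro h'
        rw [sub_eq_zero, eq_div_iff hζ0, one_mul] at h'
        exact hne h'
      have h4 : qq β a ζ ≠ 0 := qq_ne h ha1 hζ1
      have h5 : Real.log ‖phi β ζ - phi β a‖ = - Real.log ‖a‖ + (G ζ).re + (F ζ).re := by
        rw [h2, norm_mul, norm_mul, norm_neg, norm_inv,
          Real.log_mul (mul_ne_zero (inv_ne_zero hapos.ne') (norm_ne_zero_iff.mpr h3))
            (norm_ne_zero_iff.mpr h4),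
          Real.log_mul (inv_ne_zero hapos.ne') (norm_ne_zero_iff.mpr h3), Real.log_inv, hG,
          Complex.log_re, ← hexp ζ hζ1, Complex.norm_exp, Real.log_exp]
      have h6 : Lam ρ a ζ = conj (G ζ) := by rw [← hGL ζ hζ, Complex.conj_conj]
      rw [h5, h6, hc0']
      have h7 := Complex.add_conj (G ζ)
      have h8 := Complex.add_conj (F ζ)
      push_cast at h7 h8 ⊢
      linear_combination -h7 - h8
    simp only
    rw [h1, dphi_div h ha1 hζ1 ha0 hζ0 hne]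
    simp only [gp, hQ]
    ring
  have hc1 : CircleIntegrable (fun ζ => (c0 + Lam ρ a ζ + F ζ) * Q ζ) 0 ρ :=
    (hWc.mul hQc).circleIntegrable hρ.le
  have hc2 : CircleIntegrable (fun ζ => (c0 + Lam ρ a ζ + F ζ) * gp a ζ) 0 ρ :=
    (hWc.mul hgpc).circleIntegrable hρ.le
  have hc3 : CircleIntegrable (fun ζ => G ζ * Q ζ) 0 ρ := (hGc.mul hQc).circleIntegrable hρ.le
  have hc4 : CircleIntegrable (fun ζ => G ζ * gp a ζ) 0 ρ := (hGc.mul hgpc).circleIntegrable hρ.le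
  have hc5 : CircleIntegrable (fun ζ => conj (F ζ) * Q ζ) 0 ρ :=
    (hcFc.mul hQc).circleIntegrable hρ.le
  have hc6 : CircleIntegrable (fun ζ => conj (F ζ) * gp a ζ) 0 ρ :=
    (hcFc.mul hgpc).circleIntegrable hρ.le
  have hc12 : CircleIntegrable (fun ζ => ((c0 + Lam ρ a ζ + F ζ) * Q ζ) +
      ((c0 + Lam ρ a ζ + F ζ) * gp a ζ)) 0 ρ := hc1.add hc2
  have hc13 : CircleIntegrable (fun ζ => (((c0 + Lam ρ a ζ + F ζ) * Q ζ) +
      ((c0 + Lam ρ a ζ + F ζ) * gp a ζ)) + (G ζ * Q ζ)) 0 ρ := hc12.add hc3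
  have hc14 : CircleIntegrable (fun ζ => ((((c0 + Lam ρ a ζ + F ζ) * Q ζ) +
      ((c0 + Lam ρ a ζ + F ζ) * gp a ζ)) + (G ζ * Q ζ)) + (G ζ * gp a ζ)) 0 ρ := hc13.add hc4
  have hc15 : CircleIntegrable (fun ζ => (((((c0 + Lam ρ a ζ + F ζ) * Q ζ) +
      ((c0 + Lam ρ a ζ + F ζ) * gp a ζ)) + (G ζ * Q ζ)) + (G ζ * gp a ζ)) +
      (conj (F ζ) * Q ζ)) 0 ρ := hc14.add hc5
  rw [hJ, circleIntegral.integral_add hc15 hc6, circleIntegral.integral_add hc14 hc5,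
    circleIntegral.integral_add hc13 hc4, circleIntegral.integral_add hc12 hc3,
    circleIntegral.integral_add hc1 hc2, I1, I2, I3, I4, I5, I6] at hc
  have hpi : (π:ℂ) ≠ 0 := by exact_mod_cast Real.pi_ne_zero
  have hAc : (A:ℂ) = ℓ - c / π := by
    have hI : (2 * I : ℂ) ≠ 0 := by simp
    have : (2 * I : ℂ) * (π * A) = (2 * I : ℂ) * (π * ℓ - c) := by linear_combination hc
    have h2 := mul_left_cancel₀ hI this
    field_simp
    linear_combination h2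
  have hAr : A = ℓ - c / π := by exact_mod_cast hAc
  have hAle : A ≤ ℓ := by
    rw [hAr]
    have : 0 ≤ c / π := div_nonneg hc0 Real.pi_pos.le
    linarith
  -- the Dirichlet form of the combination
  have hEd : DifferentiableOn ℂ (fun ζ => F ζ - u * Lam ρ a ζ) (ball 0 R) :=
    hFd.sub (hLd.const_mul u)
  obtain ⟨c2, hc20, hc2'⟩ := dirichlet_sum hEd hρ hρR
  have huu : conj u * u = 1 := by
    rw [Complex.conj_mul', hu]; norm_num
  have hE : (∮ ζ in C(0, ρ), conj (F ζ - u * Lam ρ a ζ) *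
      deriv (fun ζ => F ζ - u * Lam ρ a ζ) ζ) =
      ∮ ζ in C(0, ρ), (((conj (F ζ) * Q ζ) - u * (conj (F ζ) * Lamp ρ a ζ)) -
        conj u * (G ζ * Q ζ)) + (G ζ * Lamp ρ a ζ) := by
    apply circleIntegral.integral_congr hρ.le
    intro ζ hζ
    have h1 : deriv (fun ζ => F ζ - u * Lam ρ a ζ) ζ = Q ζ - u * Lamp ρ a ζ :=
      ((hFs ζ hζ).sub ((hLs ζ hζ).const_mul u)).deriv
    simp only
    rw [h1, map_sub, map_mul, hGL ζ hζ]
    linear_combination (G ζ * Lamp ρ a ζ) * huu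
  have hd2 : CircleIntegrable (fun ζ => u * (conj (F ζ) * Lamp ρ a ζ)) 0 ρ :=
    (continuousOn_const.mul (hcFc.mul hLpc)).circleIntegrable hρ.le
  have hd3 : CircleIntegrable (fun ζ => conj u * (G ζ * Q ζ)) 0 ρ :=
    (continuousOn_const.mul (hGc.mul hQc)).circleIntegrable hρ.le
  have hd4 : CircleIntegrable (fun ζ => G ζ * Lamp ρ a ζ) 0 ρ :=
    (hGc.mul hLpc).circleIntegrable hρ.le
  have hd12 : CircleIntegrable (fun ζ => (conj (F ζ) * Q ζ) -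
      u * (conj (F ζ) * Lamp ρ a ζ)) 0 ρ := hc5.sub hd2
  have hd13 : CircleIntegrable (fun ζ => ((conj (F ζ) * Q ζ) -
      u * (conj (F ζ) * Lamp ρ a ζ)) - conj u * (G ζ * Q ζ)) 0 ρ := hd12.sub hd3
  rw [hE, circleIntegral.integral_add hd13 hd4, circleIntegral.integral_sub hd12 hd3,
    circleIntegral.integral_sub hc5 hd2, circleIntegral.integral_const_mul,
    circleIntegral.integral_const_mul, I5, I7, I3, I8] at hc2'
  have hfin : (A:ℂ) + 2 * ((conj u * F a).re : ℂ) + ℓ = c2 := by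
    have h2pi : (2 * π * I : ℂ) ≠ 0 := two_pi_I_ne_zero
    apply mul_left_cancel₀ h2pi
    have h8 := Complex.add_conj (conj u * F a)
    rw [map_mul, Complex.conj_conj] at h8
    push_cast at h8
    rw [← hc2', ← h8]
    ring
  have hfinr : A + 2 * (conj u * F a).re + ℓ = c2 := by exact_mod_cast hfin
  refine ⟨c2, ?_, hc20⟩
  linarith

end Pool.Agent.Helper68.EKC
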