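import Pool.Agent.Helper68.EKC.E1aU
import Pool.Agent.Helper86.EK.E1b

/-!
The energy on the strip with a unimodular factor `u` (after helper86).
-/

set_option autoImplicit false

open Complex MeasureTheory Metric Set
open scoped Real ComplexConjugate ENNReal

namespace Pool.Agent.Helper68.EKC

open Pool.Agent.Helper39.Area Pool.Agent.Helper52.EK Pool.Agent.Helper39.EK Pool.Agent.Helper86.EK

/-- the comparison function with `u`: `2 kapU` is the derivative of
`log (1/z - 1/a) + u log (1 - a z)` -/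
noncomputable def kapU (a : ℝ) (u : ℂ) (ω : ℂ) : ℂ :=
  (Complex.exp ω / (Complex.exp ω - I * (tau a : ℂ)) - Complex.exp ω / (Complex.exp ω - I) +
    u * (Complex.exp ω / (Complex.exp ω + I * (tau a : ℂ)) -
      Complex.exp ω / (Complex.exp ω + I))) / 2

section
variable {a x₁ x₂ : ℝ} {ω : ℂ}

theorem ne_tau (ha : 0 < a) (ha1 : a < 1) (h1 : Real.log (tau a) < x₁)
    (hω : ω ∈ Rect x₁ x₂) : Complex.exp ω - I * (tau a : ℂ) ≠ 0 ∧
      Complex.exp ω + I * (tau a : ℂ) ≠ 0 := by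
  have e3 := sq_add_tau_ne ha ha1 h1 hω
  have e6 : Complex.exp ω ^ 2 + (tau a : ℂ) ^ 2 =
      (Complex.exp ω - I * (tau a : ℂ)) * (Complex.exp ω + I * (tau a : ℂ)) := by
    linear_combination ((tau a : ℂ) ^ 2) * I_sq
  exact ⟨fun h => e3 (by rw [e6, h, zero_mul]), fun h => e3 (by rw [e6, h, mul_zero])⟩

/-- the chain rule identity -/
theorem zd_DdU {β : ℂ → ℂ} {u : ℂ} (ha : 0 < a) (ha1 : a < 1) (h1 : Real.log (tau a) < x₁)
    (h2 : x₂ < 0) (hω : ω ∈ Rect x₁ x₂) :
    zd ω * DdU β u a (zf ω) = 2 * Xf β a ω - 2 * kapU a u ω := by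
  have hX : 2 * Xf β a ω = zd ω * (dphi β (zf ω) / (phi β (zf ω) - phi β (a:ℂ))) := by
    rw [Xf]
    by_cases h : phi β (zf ω) - phi β (a:ℂ) = 0
    · rw [h]; simp
    · field_simp
  have e1 := exp_ne_I h2 hω
  have e2 := exp_ne_neg_I hω
  have e5 : (1 + (a:ℂ)) ≠ 0 := by
    have : ((1 + a : ℝ) : ℂ) ≠ 0 := by exact_mod_cast (by positivity)
    simpa using this
  obtain ⟨e7, e8⟩ := ne_tau ha ha1 h1 hω
  have ht : (tau a : ℂ) = (1 - a) / (1 + a) := by rw [tau]; push_cast; ring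
  have hk : zd ω * (-(zf ω)⁻¹ + (zf ω - a)⁻¹ - u * (a / (1 - a * zf ω))) = 2 * kapU a u ω := by
    unfold kapU
    set E := Complex.exp ω with hE
    set t : ℂ := (tau a : ℂ) with htt
    have f1 : zf ω - a = (1 + a) * (I * t - E) / (I + E) := by
      rw [zf, ← hE, ht]
      field_simp
      ring
    have f2 : 1 - a * zf ω = (1 + a) * (I * t + E) / (I + E) := by
      rw [zf, ← hE, ht]
      field_simp
      ring
    have e7' : I * t - E ≠ 0 := fun h => e7 (by linear_combination -h)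
    have e8' : I * t + E ≠ 0 := fun h => e8 (by linear_combination h)
    have e10 : E + I = I + E := add_comm _ _
    have e9 : E - I ≠ 0 := fun h => e1 (by linear_combination -h)
    have e9' : E + I ≠ 0 := by rw [e10]; exact e2
    have e11 : (1 + a : ℂ) * t = 1 - a := by rw [ht]; field_simp
    have k1 : zd ω * (-(zf ω)⁻¹ + (zf ω - a)⁻¹) = E / (E - I * t) - E / (E - I) := by
      rw [f1, zd, zf, ← hE, e10]
      have k3 : -2 * I * E / (I + E) ^ 2 * (-((I - E) / (I + E))⁻¹ +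
          ((1 + ↑a) * (I * t - E) / (I + E))⁻¹) =
          -2 * I * E / (I + E) * (-(1 / (I - E)) + 1 / ((1 + ↑a) * (I * t - E))) := by
        field_simp
      have k4 : E / (E - I * t) - E / (E - I) = E * (I * t - I) / ((I * t - E) * (I - E)) := by
        field_simp
        ring
      rw [k3, k4, neg_add_eq_sub, div_sub_div _ _ (mul_ne_zero e5 e7') e1, div_mul_div_comm,
        div_eq_div_iff (mul_ne_zero e2 (mul_ne_zero (mul_ne_zero e5 e7') e1))
          (mul_ne_zero e7' e1)]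
      have k5 : 1 * (I - E) - (1 + ↑a) * (I * t - E) * 1 = a * (I + E) := by
        linear_combination -I * e11
      rw [k5]
      have k6 : I * t * (1 + a) - I * (1 + a) = -2 * I * a := by
        linear_combination I * e11
      linear_combination (-(E * (I + E) * (I * t - E) * (I - E))) * k6
    have k2 : zd ω * (a / (1 - a * zf ω)) = -(E / (E + I * t) - E / (E + I)) := by
      rw [f2, zd, ← hE, e10]
      have k3 : -2 * I * E / (I + E) ^ 2 * (↑a / ((1 + ↑a) * (I * t + E) / (I + E))) =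
          -2 * I * E * a / ((I + E) * ((1 + ↑a) * (I * t + E))) := by
        field_simp
      have k4 : -(E / (E + I * t) - E / (I + E)) = E * (I * t - I) / ((I * t + E) * (I + E)) := by
        have : E + I * t = I * t + E := add_comm _ _
        rw [this]
        field_simp
        ring
      rw [k3, k4, div_eq_div_iff (mul_ne_zero e2 (mul_ne_zero e5 e8')) (mul_ne_zero e8' e2)]
      have k6 : I * t * (1 + a) - I * (1 + a) = -2 * I * a := by
        linear_combination I * e11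
      linear_combination (-(E * (I + E) * (I * t + E))) * k6
    linear_combination k1 - u * k2
  rw [DdU, mul_sub, hX, hk]

end

theorem lint_ball_u {β : ℂ → ℂ} (h : Ext β) {L : ℂ → ℂ} (hL : IsLog β L) {u : ℂ} (hu : ‖u‖ = 1)
    {a : ℝ} (ha : 0 < a) (ha1 : a < 1) :
    ∫⁻ z in ball (0:ℂ) 1, ENNReal.ofReal (‖DdU β u a z‖ ^ 2) ≤
      ENNReal.ofReal (2 * π * (- Real.log (1 - a ^ 2) + (conj u * L a).re)) := by
  set r : ℕ → ℝ := fun n => 1 - (1 - a) / (n + 2) with hrdef
  have h1a : 0 < 1 - a := by linarith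
  have hr : ∀ n, a < r n ∧ r n < 1 := by
    intro n
    have hn : (0:ℝ) ≤ n := Nat.cast_nonneg n
    constructor
    · have : (1 - a) / ((n:ℝ) + 2) < 1 - a := by
        rw [div_lt_iff₀ (by positivity)]
        nlinarith
      simp only [hrdef]
      linarith
    · have : 0 < (1 - a) / ((n:ℝ) + 2) := by positivity
      simp only [hrdef]
      linarith
  have hmono : Monotone r := by
    intro m n hmn
    have hmn' : (m:ℝ) ≤ n := by exact_mod_cast hmn
    have hm : (0:ℝ) ≤ m := Nat.cast_nonneg m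
    simp only [hrdef]
    have : (1 - a) / ((n:ℝ) + 2) ≤ (1 - a) / ((m:ℝ) + 2) := by gcongr
    linarith
  have hU : ball (0:ℂ) 1 = ⋃ n, ball 0 (r n) := by
    ext z
    rw [mem_iUnion]
    constructor
    · intro hz
      rw [mem_ball, dist_zero_right] at hz
      obtain ⟨n, hn⟩ := exists_nat_gt ((1 - a) / (1 - ‖z‖))
      have hz1 : 0 < 1 - ‖z‖ := by linarith
      refine ⟨n, ?_⟩
      rw [mem_ball, dist_zero_right]
      rw [div_lt_iff₀ hz1] at hn
      have hn0 : (0:ℝ) ≤ n := Nat.cast_nonneg n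
      have : (1 - a) / ((n:ℝ) + 2) < 1 - ‖z‖ := by
        rw [div_lt_iff₀ (by positivity)]
        nlinarith
      simp only [hrdef]
      linarith
    · rintro ⟨n, hn⟩
      exact ball_subset_ball (hr n).2.le hn
  rw [hU, setLIntegral_iUnion_of_directed _
    (Monotone.directed_le (fun m n hmn => ball_subset_ball (hmono hmn)))]
  refine iSup_le fun n => ?_
  obtain ⟨hi, hle⟩ := E1aU h hL hu ha (hr n).1 (hr n).2
  rw [← ofReal_integral_eq_lintegral_ofReal hi (Filter.Eventually.of_forall fun _ => by positivity)]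
  exact ENNReal.ofReal_le_ofReal hle

/-- continuity of the integrand on the closed rectangle -/
theorem cont_F_u {β : ℂ → ℂ} {R : ℝ} (h : ExtR β R) (u : ℂ) {a : ℝ} (ha : 0 < a) (ha1 : a < 1) {x₁ x₂ : ℝ}
    (h1 : Real.log (tau a) < x₁) (h2 : x₂ < 0) :
    ContinuousOn (fun ω => ‖2 * Xf β a ω - 2 * kapU a u ω‖ ^ 2) (Rect x₁ x₂) := by
  have hR := h.one_lt
  have hzc : ContinuousOn zf (Rect x₁ x₂) := fun ω hω =>
    (hasDerivAt_zf (exp_ne_neg_I hω)).continuousAt.continuousWithinAt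
  have hmaps : MapsTo zf (Rect x₁ x₂) (ball 0 R) := by
    intro ω hω
    rw [mem_ball, dist_zero_right]
    exact lt_of_le_of_lt (norm_zf_le hω) hR
  have hβ : ContinuousOn (fun ω => β (zf ω)) (Rect x₁ x₂) := h.diff.continuousOn.comp hzc hmaps
  have hdβ : ContinuousOn (fun ω => deriv β (zf ω)) (Rect x₁ x₂) :=
    (h.diff.deriv isOpen_ball).continuousOn.comp hzc hmaps
  have hX : ContinuousOn (Xf β a) (Rect x₁ x₂) := by
    have c1 : ContinuousOn zd (Rect x₁ x₂) := by
      apply ContinuousOn.div (by fun_prop) (by fun_prop)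
      intro ω hω
      apply pow_ne_zero
      rw [add_comm]
      exact exp_ne_neg_I hω
    have c2 : ContinuousOn (fun ω => dphi β (zf ω)) (Rect x₁ x₂) := by
      apply ContinuousOn.add _ hdβ
      apply ContinuousOn.neg
      apply ContinuousOn.inv₀ (hzc.pow 2)
      intro ω hω
      exact pow_ne_zero _ (zf_ne_zero h2 hω)
    have c3 : ContinuousOn (fun ω => phi β (zf ω) - phi β (a:ℂ)) (Rect x₁ x₂) := by
      apply ContinuousOn.sub _ continuousOn_const
      apply ContinuousOn.add _ hβ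
      exact hzc.inv₀ (fun ω hω => zf_ne_zero h2 hω)
    apply (c1.mul c2).div (continuousOn_const.mul c3)
    intro ω hω h3
    have h4 : phi β (zf ω) - phi β (a:ℂ) = 0 := by simpa using h3
    have haR : ((a:ℝ):ℂ) ∈ ball (0:ℂ) R := by
      rw [mem_ball, dist_zero_right, Complex.norm_real, Real.norm_of_nonneg ha.le]
      linarith
    exact zf_ne_a ha ha1 h1 hω (h.inj _ _ (hmaps hω) haR (zf_ne_zero h2 hω)
      (by exact_mod_cast ha.ne') (sub_eq_zero.mp h4))
  have hk : ContinuousOn (kapU a u) (Rect x₁ x₂) := by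
    have d1 : ∀ ω ∈ Rect x₁ x₂, Complex.exp ω - I * (tau a : ℂ) ≠ 0 := fun ω hω =>
      (ne_tau ha ha1 h1 hω).1
    have d2 : ∀ ω ∈ Rect x₁ x₂, Complex.exp ω - I ≠ 0 := fun ω hω h' =>
      exp_ne_I h2 hω (by linear_combination -h')
    have d3 : ∀ ω ∈ Rect x₁ x₂, Complex.exp ω + I * (tau a : ℂ) ≠ 0 := fun ω hω =>
      (ne_tau ha ha1 h1 hω).2
    have d4 : ∀ ω ∈ Rect x₁ x₂, Complex.exp ω + I ≠ 0 := fun ω hω h' =>
      exp_ne_neg_I hω (by linear_combination h')
    unfold kapU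
    apply ContinuousOn.div_const
    apply ContinuousOn.add
    · exact (ContinuousOn.div (by fun_prop) (by fun_prop) d1).sub
        (ContinuousOn.div (by fun_prop) (by fun_prop) d2)
    · apply continuousOn_const.mul
      exact (ContinuousOn.div (by fun_prop) (by fun_prop) d3).sub
        (ContinuousOn.div (by fun_prop) (by fun_prop) d4)
  exact (((continuousOn_const.mul hX).sub (continuousOn_const.mul hk)).norm).pow 2

/-- E1b: energy on the strip, with `u` -/
theorem E1bU {β : ℂ → ℂ} {R : ℝ} (h : ExtR β R) {L : ℂ → ℂ} (hL : IsLog β L) {u : ℂ}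
    (hu : ‖u‖ = 1) {a : ℝ} (ha : 0 < a) (ha1 : a < 1) {x₁ x₂ : ℝ}
    (h1 : Real.log (tau a) < x₁) (h12 : x₁ ≤ x₂) (h2 : x₂ < 0) :
    II x₁ x₂ (fun ξ η => ‖2 * Xf β a (pt ξ η) - 2 * kapU a u (pt ξ η)‖ ^ 2) ≤
      2 * π * (- Real.log (1 - a ^ 2) + (conj u * L a).re) := by
  have hF := cont_F_u h u ha ha1 h1 h2
  have hE := h.toExt
  have hB : 0 ≤ 2 * π * (- Real.log (1 - a ^ 2) + (conj u * L a).re) := by
    have haa : a < (a + 1) / 2 := by linarith
    have haa1 : (a + 1) / 2 < 1 := by linarith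
    exact (integral_nonneg fun z => by positivity).trans (E1aU hE hL hu ha haa haa1).2
  rw [II_eq h12 hF]
  have hSR : Ioo x₁ x₂ ×ℂ Ioo 0 π ⊆ Rect x₁ x₂ := fun ω hω =>
    ⟨Ioo_subset_Icc_self hω.1, Ioo_subset_Icc_self hω.2⟩
  have hSm : MeasurableSet (Ioo x₁ x₂ ×ℂ Ioo 0 π) :=
    (isOpen_Ioo.reProdIm isOpen_Ioo).measurableSet
  rw [integral_eq_lintegral_of_nonneg_ae (Filter.Eventually.of_forall fun _ => by positivity)
    ((hF.mono hSR).aestronglyMeasurable hSm)]
  apply ENNReal.toReal_le_of_le_ofReal hB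
  have hd : ∀ ω ∈ Ioo x₁ x₂ ×ℂ Ioo 0 π, HasFDerivWithinAt zf (zd ω • (1 : ℂ →L[ℝ] ℂ))
      (Ioo x₁ x₂ ×ℂ Ioo 0 π) ω := fun ω hω =>
    (hasDerivAt_zf (exp_ne_neg_I (hSR hω))).complexToReal_fderiv.hasFDerivWithinAt
  have hinj : InjOn zf (Ioo x₁ x₂ ×ℂ Ioo 0 π) := by
    intro ω hω ω' hω' he
    have e1 := exp_ne_neg_I (hSR hω)
    have e2 := exp_ne_neg_I (hSR hω')
    rw [zf, zf, div_eq_div_iff e1 e2] at he
    have e3 : Complex.exp ω = Complex.exp ω' := by
      have : 2 * I * (Complex.exp ω - Complex.exp ω') = 0 := by linear_combination -he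
      have h4 : (2:ℂ) * I ≠ 0 := by simp
      exact sub_eq_zero.mp ((mul_eq_zero.mp this).resolve_left h4)
    obtain ⟨n, hn⟩ := Complex.exp_eq_exp_iff_exists_int.mp e3
    have h5 := congrArg Complex.im hn
    simp only [Complex.add_im, Complex.mul_im, Complex.intCast_re, Complex.intCast_im,
      Complex.mul_re, Complex.re_ofNat, Complex.im_ofNat, Complex.ofReal_re, Complex.ofReal_im,
      Complex.I_re, Complex.I_im, mul_zero, mul_one, sub_zero, zero_mul, add_zero] at h5
    have hπ := Real.pi_pos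
    have h6 := hω.2
    have h7 := hω'.2
    have h6a : 0 < ω.im := h6.1
    have h6b : ω.im < π := h6.2
    have h7a : 0 < ω'.im := h7.1
    have h7b : ω'.im < π := h7.2
    have h8 : n = 0 := by
      have h9 : (n:ℝ) < 1 := by
        by_contra h10
        push Not at h10
        nlinarith
      have h11 : (-1:ℝ) < n := by
        by_contra h10
        push Not at h10
        nlinarith
      have h9' : n < 1 := by exact_mod_cast h9
      have h11' : -1 < n := by exact_mod_cast h11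
      omega
    rw [hn, h8]
    simp
  have himg : zf '' (Ioo x₁ x₂ ×ℂ Ioo 0 π) ⊆ ball 0 1 := by
    rintro _ ⟨ω, hω, rfl⟩
    rw [mem_ball, dist_zero_right]
    apply norm_zf_lt
    rw [Complex.exp_im]
    exact mul_pos (Real.exp_pos _) (Real.sin_pos_of_pos_of_lt_pi hω.2.1 hω.2.2)
  calc ∫⁻ ω in Ioo x₁ x₂ ×ℂ Ioo 0 π, ENNReal.ofReal (‖2 * Xf β a ω - 2 * kapU a u ω‖ ^ 2)
      = ∫⁻ ω in Ioo x₁ x₂ ×ℂ Ioo 0 π, ENNReal.ofReal |(zd ω • (1 : ℂ →L[ℝ] ℂ)).det| *
          ENNReal.ofReal (‖DdU β u a (zf ω)‖ ^ 2) := by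
        apply setLIntegral_congr_fun hSm
        intro ω hω
        simp only
        rw [det_cmul, ← ENNReal.ofReal_mul (by positivity), ← mul_pow, ← norm_mul,
          zd_DdU ha ha1 h1 h2 (hSR hω)]
    _ = ∫⁻ z in zf '' (Ioo x₁ x₂ ×ℂ Ioo 0 π), ENNReal.ofReal (‖DdU β u a z‖ ^ 2) :=
        (lintegral_image_eq_lintegral_abs_det_fderiv_mul volume hSm hd hinj
          (fun z => ENNReal.ofReal (‖DdU β u a z‖ ^ 2))).symm
    _ ≤ ∫⁻ z in ball (0:ℂ) 1, ENNReal.ofReal (‖DdU β u a z‖ ^ 2) := lintegral_mono_set himg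
    _ ≤ _ := lint_ball_u hE hL hu ha ha1

end Pool.Agent.Helper68.EKC
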