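import Pool.Agent.Helper68.EKC.E1bU
import Pool.Agent.Helper83.EK.KOneOf
set_option autoImplicit false
open Complex MeasureTheory Metric Set
open scoped Real ComplexConjugate

/-! EKC: comparison of `kapU` with `(1 + u) / 2`. -/

namespace Pool.Agent.Helper68.EKC

open Pool.Agent.Helper39.Area Pool.Agent.Helper52.EK Pool.Agent.Helper70.EK

theorem II_le3' {F₁ F₂ F₃ : ℝ → ℝ → ℝ} {x₁ x₂ p q : ℝ} (h : x₁ ≤ x₂)
    (c₁ : ContinuousOn (fun v : ℝ × ℝ => F₁ v.1 v.2) (Icc x₁ x₂ ×ˢ Icc 0 π))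
    (c₂ : ContinuousOn (fun v : ℝ × ℝ => F₂ v.1 v.2) (Icc x₁ x₂ ×ˢ Icc 0 π))
    (c₃ : ContinuousOn (fun v : ℝ × ℝ => F₃ v.1 v.2) (Icc x₁ x₂ ×ˢ Icc 0 π))
    (hle : ∀ ξ ∈ Icc x₁ x₂, ∀ η : ℝ, F₁ ξ η ≤ p * F₂ ξ η + q * F₃ ξ η) :
    II x₁ x₂ F₁ ≤ p * II x₁ x₂ F₂ + q * II x₁ x₂ F₃ := by
  have i₁ := Pool.Agent.Helper83.EK.integrableOn_rect c₁
  have i₂ := Pool.Agent.Helper83.EK.integrableOn_rect c₂
  have i₃ := Pool.Agent.Helper83.EK.integrableOn_rect c₃
  rw [II_eq h i₁, II_eq h i₂, II_eq h i₃, ← integral_const_mul, ← integral_const_mul,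
    ← integral_add (i₂.const_mul p) (i₃.const_mul q)]
  exact setIntegral_mono_on i₁ ((i₂.const_mul p).add (i₃.const_mul q))
    (measurableSet_Ioc.prod measurableSet_Ioo)
    (fun v hv => hle v.1 (Ioc_subset_Icc_self hv.1) v.2)

theorem norm_exp_pt (ξ η : ℝ) : ‖Complex.exp (pt ξ η)‖ = Real.exp ξ := by
  rw [Complex.norm_exp]
  simp [pt]

theorem kapU_contOn {a x₁ x₂ : ℝ} (u : ℂ) (ha : 0 < a) (ha1 : a < 1)
    (h1 : Real.log (tau a) < x₁) (h2 : x₂ < 0) :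
    ContinuousOn (fun v : ℝ × ℝ => kapU a u (pt v.1 v.2)) (Icc x₁ x₂ ×ˢ Icc 0 π) := by
  have hm := Pool.Agent.Helper83.EK.pt_mapsTo x₁ x₂
  have hE : Continuous (fun v : ℝ × ℝ => Complex.exp (pt v.1 v.2)) :=
    Complex.continuous_exp.comp continuous_pt
  have hcE := hE.continuousOn (s := Icc x₁ x₂ ×ˢ Icc 0 π)
  unfold kapU
  apply ContinuousOn.div_const
  apply ContinuousOn.add
  · refine (hcE.div (hcE.sub continuousOn_const) ?_).sub
      (hcE.div (hcE.sub continuousOn_const) ?_)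
    · intro v hv
      exact (ne_tau ha ha1 h1 (hm hv)).1
    · intro v hv h'
      exact Pool.Agent.Helper86.EK.exp_ne_I h2 (hm hv) (by linear_combination -h')
  · apply continuousOn_const.mul
    refine (hcE.div (hcE.add continuousOn_const) ?_).sub
      (hcE.div (hcE.add continuousOn_const) ?_)
    · intro v hv
      exact (ne_tau ha ha1 h1 (hm hv)).2
    · intro v hv h'
      exact Pool.Agent.Helper86.EK.exp_ne_neg_I (hm hv) (by linear_combination h')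

theorem exp_neg_one_le : Real.exp (-1) ≤ 1 / 2 := by
  rw [Real.exp_neg, ← one_div]
  apply one_div_le_one_div_of_le two_pos
  have := Real.add_one_le_exp (1:ℝ)
  linarith

theorem kapU_err {a : ℝ} {u : ℂ} (hu : ‖u‖ = 1) (ha : 0 < a) (ha1 : a < 1) {ξ : ℝ}
    (h1 : Real.log (tau a) + 1 ≤ ξ) (h2 : ξ ≤ -1) (η : ℝ) :
    ‖kapU a u (pt ξ η) - (1 + u) / 2‖ ^ 2 ≤
      8 * (tau a ^ 2 * Real.exp (-(2 * ξ))) + 8 * Real.exp (2 * ξ) := by
  have ht := Pool.Agent.Helper83.EK.tau_pos ha ha1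
  set E := Complex.exp (pt ξ η) with hE
  have hn : ‖E‖ = Real.exp ξ := norm_exp_pt ξ η
  set x := Real.exp ξ with hx
  have hx0 : 0 < x := Real.exp_pos _
  have hx2 : x ≤ 1 / 2 := (Real.exp_le_exp.mpr h2).trans exp_neg_one_le
  have htx : tau a / x ≤ 1 / 2 := by
    have h3 : tau a / x = Real.exp (Real.log (tau a) - ξ) := by
      rw [Real.exp_sub, Real.exp_log ht]
    rw [h3]
    exact (Real.exp_le_exp.mpr (by linarith)).trans exp_neg_one_le
  have htx' : tau a ≤ x / 2 := by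
    rw [div_le_iff₀ hx0] at htx
    linarith
  set t := tau a with htdef
  have hIt : ‖I * (t : ℂ)‖ = t := by
    rw [norm_mul, norm_I, one_mul, Complex.norm_real, Real.norm_of_nonneg ht.le]
  have n1 : x / 2 ≤ ‖E - I * (t:ℂ)‖ := by
    have := norm_sub_norm_le E (I * (t:ℂ))
    rw [hn, hIt] at this
    linarith
  have n2 : x / 2 ≤ ‖E + I * (t:ℂ)‖ := by
    have := norm_sub_norm_le E (-(I * (t:ℂ)))
    rw [hn, norm_neg, hIt, sub_neg_eq_add] at this
    linarith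
  have n3 : 1 / 2 ≤ ‖E - I‖ := by
    have := norm_sub_norm_le I E
    rw [hn, norm_I, norm_sub_rev] at this
    linarith
  have n4 : 1 / 2 ≤ ‖E + I‖ := by
    have := norm_sub_norm_le I (-E)
    rw [norm_neg, hn, norm_I, sub_neg_eq_add, add_comm] at this
    linarith
  have z1 : E - I * (t:ℂ) ≠ 0 := norm_pos_iff.mp (by linarith)
  have z2 : E + I * (t:ℂ) ≠ 0 := norm_pos_iff.mp (by linarith)
  have z3 : E - I ≠ 0 := norm_pos_iff.mp (by linarith)
  have z4 : E + I ≠ 0 := norm_pos_iff.mp (by linarith)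
  have key : kapU a u (pt ξ η) - (1 + u) / 2 =
      (I * t / (E - I * t) - E / (E - I) + u * (-(I * t / (E + I * t)) - E / (E + I))) / 2 := by
    have k1 : E / (E - I * (t:ℂ)) = 1 + I * t / (E - I * t) := by
      field_simp
      ring
    have k2 : E / (E + I * (t:ℂ)) = 1 - I * t / (E + I * t) := by
      field_simp
      ring
    rw [kapU, ← hE, ← htdef, k1, k2]
    ring
  have b1 : ‖I * (t:ℂ) / (E - I * t)‖ ≤ 2 * (t / x) := by
    rw [norm_div, hIt, div_le_iff₀ (by linarith)]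
    calc t = 2 * (t / x) * (x / 2) := by field_simp
      _ ≤ _ := mul_le_mul_of_nonneg_left n1 (by positivity)
  have b2 : ‖I * (t:ℂ) / (E + I * t)‖ ≤ 2 * (t / x) := by
    rw [norm_div, hIt, div_le_iff₀ (by linarith)]
    calc t = 2 * (t / x) * (x / 2) := by field_simp
      _ ≤ _ := mul_le_mul_of_nonneg_left n2 (by positivity)
  have b3 : ‖E / (E - I)‖ ≤ 2 * x := by
    rw [norm_div, hn, div_le_iff₀ (by linarith)]
    nlinarith
  have b4 : ‖E / (E + I)‖ ≤ 2 * x := by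
    rw [norm_div, hn, div_le_iff₀ (by linarith)]
    nlinarith
  have hb : ‖kapU a u (pt ξ η) - (1 + u) / 2‖ ≤ 2 * (t / x + x) := by
    rw [key, norm_div]
    have h3 : ‖(2:ℂ)‖ = 2 := by simp
    rw [h3, div_le_iff₀ two_pos]
    refine (norm_add_le _ _).trans ?_
    rw [norm_mul, hu, one_mul]
    have h4 := norm_sub_le (I * (t:ℂ) / (E - I * t)) (E / (E - I))
    have h5 := norm_sub_le (-(I * (t:ℂ) / (E + I * t))) (E / (E + I))
    rw [norm_neg] at h5
    linarith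
  have h6 : ‖kapU a u (pt ξ η) - (1 + u) / 2‖ ^ 2 ≤ (2 * (t / x + x)) ^ 2 :=
    pow_le_pow_left₀ (norm_nonneg _) hb 2
  have h7 : Real.exp (-(2 * ξ)) = 1 / x ^ 2 := by
    rw [Real.exp_neg, hx, ← Real.exp_nat_mul]
    push_cast
    rw [one_div]
  have h8 : Real.exp (2 * ξ) = x ^ 2 := by
    rw [hx, ← Real.exp_nat_mul]
    push_cast
    rfl
  rw [h7, h8]
  refine h6.trans ?_
  have h9 : t ^ 2 * (1 / x ^ 2) = (t / x) ^ 2 := by ring
  rw [h9]
  nlinarith [sq_nonneg (t / x - x)]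

theorem II_xi (f : ℝ → ℝ) (x₁ x₂ : ℝ) :
    II x₁ x₂ (fun ξ _ => f ξ) = π * ∫ ξ in x₁..x₂, f ξ := by
  unfold II
  simp only [intervalIntegral.integral_const, sub_zero, smul_eq_mul]
  rw [intervalIntegral.integral_const_mul]

/-- E1d with `u` -/
theorem E1dU {u : ℂ} (hu : ‖u‖ = 1) : ∃ C : ℝ, ∀ a : ℝ, 0 < a → a < 1 → ∀ x₁ x₂ : ℝ,
    Real.log (tau a) + 1 ≤ x₁ → x₁ ≤ x₂ → x₂ ≤ -1 →
    II x₁ x₂ (fun ξ η => ‖kapU a u (pt ξ η) - (1 + u) / 2‖ ^ 2) ≤ C := by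
  refine ⟨8 * (π * (1 / 2)) + 8 * (π * (1 / 2)), ?_⟩
  intro a ha ha1 x₁ x₂ h1 h12 h2
  have ht := Pool.Agent.Helper83.EK.tau_pos ha ha1
  have hx₁ : Real.log (tau a) < x₁ := by linarith
  have c1 : ContinuousOn (fun v : ℝ × ℝ => ‖kapU a u (pt v.1 v.2) - (1 + u) / 2‖ ^ 2)
      (Icc x₁ x₂ ×ˢ Icc 0 π) :=
    ((kapU_contOn u ha ha1 hx₁ (by linarith)).sub continuousOn_const).norm.pow 2
  have hle := II_le3' (F₁ := fun ξ η => ‖kapU a u (pt ξ η) - (1 + u) / 2‖ ^ 2)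
    (F₂ := fun ξ _ => tau a ^ 2 * Real.exp (-(2 * ξ))) (F₃ := fun ξ _ => Real.exp (2 * ξ))
    (p := 8) (q := 8) h12 c1 (by fun_prop) (by fun_prop)
    (fun ξ hξ η => kapU_err hu ha ha1 (h1.trans hξ.1) (hξ.2.trans h2) η)
  refine hle.trans ?_
  rw [II_xi (fun ξ => tau a ^ 2 * Real.exp (-(2 * ξ))), II_xi (fun ξ => Real.exp (2 * ξ))]
  have hπ := Real.pi_pos
  have i1 : (∫ ξ in x₁..x₂, tau a ^ 2 * Real.exp (-(2 * ξ))) ≤ 1 / 2 := by
    have hd : ∀ ξ ∈ uIcc x₁ x₂, HasDerivAt (fun ξ => -(tau a ^ 2 * Real.exp (-(2 * ξ))) / 2)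
        (tau a ^ 2 * Real.exp (-(2 * ξ))) ξ := by
      intro ξ _
      have h3 : HasDerivAt (fun ξ : ℝ => -(2 * ξ)) (-2) ξ := by
        have h := (hasDerivAt_id ξ).const_mul (2:ℝ)
        rw [mul_one] at h
        exact h.neg
      have h4 := ((h3.exp.const_mul (tau a ^ 2)).neg).div_const 2
      refine h4.congr_deriv ?_
      ring
    rw [intervalIntegral.integral_eq_sub_of_hasDerivAt hd
      (by apply Continuous.intervalIntegrable; fun_prop)]
    have h5 : tau a ^ 2 * Real.exp (-(2 * x₁)) ≤ 1 := by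
      have h6 : tau a ^ 2 * Real.exp (-(2 * x₁)) = Real.exp (2 * (Real.log (tau a) - x₁)) := by
        have h7 : tau a ^ 2 = Real.exp (2 * Real.log (tau a)) := by
          rw [mul_comm, Real.exp_mul, Real.exp_log ht, Real.rpow_two]
        rw [h7, ← Real.exp_add]
        congr 1
        ring
      rw [h6, Real.exp_le_one_iff]
      linarith
    have h8 : 0 ≤ tau a ^ 2 * Real.exp (-(2 * x₂)) := by positivity
    linarith
  have i2 : (∫ ξ in x₁..x₂, Real.exp (2 * ξ)) ≤ 1 / 2 := by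
    have hd : ∀ ξ ∈ uIcc x₁ x₂, HasDerivAt (fun ξ => Real.exp (2 * ξ) / 2)
        (Real.exp (2 * ξ)) ξ := by
      intro ξ _
      have h3 : HasDerivAt (fun ξ : ℝ => 2 * ξ) 2 ξ := by
        simpa using (hasDerivAt_id ξ).const_mul (2:ℝ)
      have h4 := h3.exp.div_const 2
      refine h4.congr_deriv ?_
      ring
    rw [intervalIntegral.integral_eq_sub_of_hasDerivAt hd
      (by apply Continuous.intervalIntegrable; fun_prop)]
    have h5 : Real.exp (2 * x₂) ≤ 1 := by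
      rw [Real.exp_le_one_iff]
      linarith
    have h8 := Real.exp_pos (2 * x₁)
    linarith
  have j1 := mul_le_mul_of_nonneg_left i1 hπ.le
  have j2 := mul_le_mul_of_nonneg_left i2 hπ.le
  linarith

end Pool.Agent.Helper68.EKC
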