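import Pool.Agent.Helper68.EKC.AuxU

/-!
E1: the energy inequality with a unimodular factor `u` (after helper39).
-/

set_option autoImplicit false

open Complex MeasureTheory Metric Set Filter Topology
open scoped Real ENNReal ComplexConjugate NNReal

namespace Pool.Agent.Helper68.EKC

open Pool.Agent.Helper39.Area Pool.Agent.Helper39.EK

variable {β : ℂ → ℂ}

theorem energy_rho_u (h : Ext β) {u : ℂ} (hu : ‖u‖ = 1) {ρ₀ ρ : ℝ} (hρ₀ : 0 < ρ₀) (hρ : ρ₀ < ρ) (hρ1 : ρ < 1)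
    {a : ℂ} (ha : a ∈ ball (0:ℂ) ρ) (ha0 : a ≠ 0) {F : ℂ → ℂ}
    (hF : ∀ ζ ∈ ball (0:ℂ) 1, HasDerivAt F (deriv (qq β a) ζ / qq β a ζ) ζ)
    (hF0 : F 0 = 0) (hexp : ∀ ζ ∈ ball (0:ℂ) 1, Complex.exp (F ζ) = qq β a ζ) :
    ∫ z in ball (0:ℂ) ρ₀, ‖deriv F z + u * (conj a / ((ρ:ℂ) ^ 2 - conj a * z))‖ ^ 2 ≤
      π * (2 * (- Real.log (1 - ‖a‖ ^ 2 / ρ ^ 2)) + 2 * (conj u * F a).re) := by
  have hρp : 0 < ρ := hρ₀.trans hρ
  obtain ⟨c2, hc2, hsum⟩ := energy_aux_u h hu hρp hρ1 ha ha0 hF hF0 hexp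
  set R : ℝ := min 1 (ρ ^ 2 / ‖a‖) with hR
  have hρR : ρ < R := lt_min hρ1 (rad_lt hρp ha ha0)
  have hR1 : ball (0:ℂ) R ⊆ ball 0 1 := ball_subset_ball (min_le_left _ _)
  have hR2 : ball (0:ℂ) R ⊆ ball 0 (ρ ^ 2 / ‖a‖) := ball_subset_ball (min_le_right _ _)
  have hFd : DifferentiableOn ℂ F (ball 0 R) := fun ζ hζ =>
    (hF ζ (hR1 hζ)).differentiableAt.differentiableWithinAt
  have hLd : DifferentiableOn ℂ (Lam ρ a) (ball 0 R) := (lam_diff hρp ha ha0).mono hR2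
  have hEd : DifferentiableOn ℂ (fun ζ => F ζ - u * Lam ρ a ζ) (ball 0 R) := hFd.sub (hLd.const_mul u)
  have h1 := area_le hEd hρp hρR hsum
  have hder : ∀ z ∈ ball (0:ℂ) R, deriv (fun ζ => F ζ - u * Lam ρ a ζ) z =
      deriv F z + u * (conj a / ((ρ:ℂ) ^ 2 - conj a * z)) := by
    intro z hz
    have h2 : deriv (fun ζ => F ζ - u * Lam ρ a ζ) z = deriv F z - u * Lamp ρ a z :=
      (((hF z (hR1 hz)).differentiableAt.hasDerivAt).sub
        ((lam_hasDeriv hρp ha ha0 (hR2 hz)).const_mul u)).deriv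
    rw [h2, Lamp]
    have hρc : (ρ:ℂ) ^ 2 ≠ 0 := pow_ne_zero _ (by exact_mod_cast hρp.ne')
    have h3 : (1 - conj a * z / (ρ:ℂ) ^ 2) = ((ρ:ℂ) ^ 2 - conj a * z) / (ρ:ℂ) ^ 2 := by
      rw [sub_div, div_self hρc]
    rw [h3, neg_div, mul_neg, sub_neg_eq_add, div_div_div_cancel_right₀ hρc]
  have hcont : ContinuousOn (fun z => ‖deriv F z + u * (conj a / ((ρ:ℂ) ^ 2 - conj a * z))‖ ^ 2)
      (closedBall 0 ρ) := by
    have h4 : ContinuousOn (fun z => ‖deriv (fun ζ => F ζ - u * Lam ρ a ζ) z‖ ^ 2) (closedBall 0 ρ) :=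
      (((hEd.deriv isOpen_ball).continuousOn.mono (closedBall_subset_ball hρR)).norm).pow 2
    refine h4.congr fun z hz => ?_
    simp only
    rw [hder z (closedBall_subset_ball hρR hz)]
  have hint : IntegrableOn (fun z => ‖deriv F z + u * (conj a / ((ρ:ℂ) ^ 2 - conj a * z))‖ ^ 2)
      (ball 0 ρ) :=
    (hcont.integrableOn_compact (isCompact_closedBall _ _)).mono_set ball_subset_closedBall
  calc ∫ z in ball (0:ℂ) ρ₀, ‖deriv F z + u * (conj a / ((ρ:ℂ) ^ 2 - conj a * z))‖ ^ 2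
      ≤ ∫ z in ball (0:ℂ) ρ, ‖deriv F z + u * (conj a / ((ρ:ℂ) ^ 2 - conj a * z))‖ ^ 2 :=
        setIntegral_mono_set hint (ae_of_all _ fun _ => by positivity)
          (ball_subset_ball hρ.le).eventuallyLE
    _ = ∫ z in ball (0:ℂ) ρ, ‖deriv (fun ζ => F ζ - u * Lam ρ a ζ) z‖ ^ 2 := by
        apply setIntegral_congr_fun measurableSet_ball
        intro z hz
        simp only
        rw [hder z (ball_subset_ball hρR.le hz)]
    _ ≤ π * c2 := h1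
    _ ≤ _ := mul_le_mul_of_nonneg_left hc2 Real.pi_pos.le

/-- E1: the energy inequality -/
theorem energy_u (h : Ext β) {u : ℂ} (hu : ‖u‖ = 1) {ρ₀ : ℝ} (hρ₀ : 0 < ρ₀) (hρ₀1 : ρ₀ < 1)
    {a : ℂ} (ha : a ∈ ball (0:ℂ) 1) (ha0 : a ≠ 0) {F : ℂ → ℂ}
    (hF : ∀ ζ ∈ ball (0:ℂ) 1, HasDerivAt F (deriv (qq β a) ζ / qq β a ζ) ζ)
    (hF0 : F 0 = 0) (hexp : ∀ ζ ∈ ball (0:ℂ) 1, Complex.exp (F ζ) = qq β a ζ) :
    ∫ z in ball (0:ℂ) ρ₀, ‖deriv F z + u * (conj a / (1 - conj a * z))‖ ^ 2 ≤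
      2 * π * (- Real.log (1 - ‖a‖ ^ 2) + (conj u * F a).re) := by
  have ha1 : ‖a‖ < 1 := by simpa using ha
  have hapos : 0 < ‖a‖ := norm_pos_iff.mpr ha0
  have hFd : DifferentiableOn ℂ F (ball 0 1) := fun ζ hζ =>
    (hF ζ hζ).differentiableAt.differentiableWithinAt
  have hdc : ContinuousOn (deriv F) (closedBall 0 ρ₀) :=
    (hFd.deriv isOpen_ball).continuousOn.mono (closedBall_subset_ball hρ₀1)
  obtain ⟨M, hM⟩ := (isCompact_closedBall (0:ℂ) ρ₀).exists_bound_of_continuousOn hdc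
  have hM0 : 0 ≤ M := (norm_nonneg _).trans (hM 0 (mem_closedBall_self hρ₀.le))
  have haρ : ‖a‖ * ρ₀ < 1 := by nlinarith
  set δ : ℝ := (1 - ‖a‖ * ρ₀) / 2 with hδ
  have hδ0 : 0 < δ := by rw [hδ]; linarith
  have hlow : ∀ ρ : ℝ, (1 + ‖a‖ * ρ₀) / 2 ≤ ρ ^ 2 → ∀ z ∈ ball (0:ℂ) ρ₀,
      δ ≤ ‖(ρ:ℂ) ^ 2 - conj a * z‖ := by
    intro ρ hρ z hz
    have h1 : ‖(ρ:ℂ) ^ 2‖ = ρ ^ 2 := by
      rw [norm_pow, Complex.norm_real, Real.norm_eq_abs, sq_abs]
    have h2 : ‖conj a * z‖ ≤ ‖a‖ * ρ₀ := by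
      rw [norm_mul, RCLike.norm_conj]
      rw [mem_ball, dist_zero_right] at hz
      exact mul_le_mul_of_nonneg_left hz.le (norm_nonneg _)
    have h3 := norm_sub_norm_le ((ρ:ℂ) ^ 2) (conj a * z)
    rw [h1] at h3
    rw [hδ]
    linarith
  have hev : ∀ᶠ ρ : ℝ in 𝓝[<] 1, ρ₀ < ρ ∧ ‖a‖ < ρ ∧ ρ < 1 ∧ (1 + ‖a‖ * ρ₀) / 2 ≤ ρ ^ 2 := by
    have h1 : ∀ᶠ ρ : ℝ in 𝓝[<] 1, ρ₀ < ρ :=
      (eventually_gt_nhds hρ₀1).filter_mono nhdsWithin_le_nhds
    have h2 : ∀ᶠ ρ : ℝ in 𝓝[<] 1, ‖a‖ < ρ :=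
      (eventually_gt_nhds ha1).filter_mono nhdsWithin_le_nhds
    have h3 : ∀ᶠ ρ : ℝ in 𝓝[<] 1, ρ < 1 := eventually_mem_nhdsWithin
    have h4 : ∀ᶠ ρ : ℝ in 𝓝[<] 1, (1 + ‖a‖ * ρ₀) / 2 < ρ ^ 2 := by
      have h5 : Tendsto (fun ρ : ℝ => ρ ^ 2) (𝓝[<] 1) (𝓝 (1 ^ 2)) :=
        ((continuous_pow 2).tendsto 1).mono_left nhdsWithin_le_nhds
      exact h5.eventually (eventually_gt_nhds (by linarith))
    filter_upwards [h1, h2, h3, h4] with ρ a1 a2 a3 a4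
    exact ⟨a1, a2, a3, a4.le⟩
  have hL : Tendsto (fun ρ : ℝ => ∫ z in ball (0:ℂ) ρ₀,
      ‖deriv F z + u * (conj a / ((ρ:ℂ) ^ 2 - conj a * z))‖ ^ 2) (𝓝[<] 1)
      (𝓝 (∫ z in ball (0:ℂ) ρ₀, ‖deriv F z + u * (conj a / (1 - conj a * z))‖ ^ 2)) := by
    apply tendsto_integral_filter_of_dominated_convergence (fun _ => (M + ‖a‖ / δ) ^ 2)
    · filter_upwards [hev] with ρ hρ
      have hc : ContinuousOn (fun z => ‖deriv F z + u * (conj a / ((ρ:ℂ) ^ 2 - conj a * z))‖ ^ 2)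
          (ball 0 ρ₀) := by
        apply ContinuousOn.pow
        apply ContinuousOn.norm
        apply (hdc.mono ball_subset_closedBall).add
        apply continuousOn_const.mul
        apply ContinuousOn.div continuousOn_const (by fun_prop)
        intro z hz h0
        have := hlow ρ hρ.2.2.2 z hz
        rw [h0, norm_zero] at this
        linarith
      exact hc.aestronglyMeasurable measurableSet_ball
    · filter_upwards [hev] with ρ hρ
      filter_upwards [ae_restrict_mem measurableSet_ball] with z hz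
      rw [Real.norm_of_nonneg (by positivity)]
      gcongr
      refine (norm_add_le _ _).trans (add_le_add (hM z (ball_subset_closedBall hz)) ?_)
      rw [norm_mul, hu, one_mul, norm_div, RCLike.norm_conj]
      exact div_le_div_of_nonneg_left (norm_nonneg _) hδ0 (hlow ρ hρ.2.2.2 z hz)
    · exact integrableOn_const measure_ball_lt_top.ne
    · filter_upwards [ae_restrict_mem measurableSet_ball] with z hz
      have hne : (1:ℂ) - conj a * z ≠ 0 := by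
        intro h0
        have := hlow 1 (by linarith) z hz
        rw [Complex.ofReal_one, one_pow, h0, norm_zero] at this
        linarith
      have h1 : Tendsto (fun ρ : ℝ => (ρ:ℂ) ^ 2 - conj a * z) (𝓝[<] 1)
          (𝓝 (((1:ℝ):ℂ) ^ 2 - conj a * z)) := by
        have hc : Continuous fun ρ : ℝ => (ρ:ℂ) ^ 2 - conj a * z := by fun_prop
        exact (hc.tendsto 1).mono_left nhdsWithin_le_nhds
      rw [Complex.ofReal_one, one_pow] at h1
      exact ((((tendsto_const_nhds (x := conj a)).div h1 hne).const_mul u).const_add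
        (deriv F z)).norm.pow 2
  have hRlim : Tendsto (fun ρ : ℝ => π * (2 * (- Real.log (1 - ‖a‖ ^ 2 / ρ ^ 2)) + 2 * (conj u * F a).re))
      (𝓝[<] 1) (𝓝 (π * (2 * (- Real.log (1 - ‖a‖ ^ 2 / 1 ^ 2)) + 2 * (conj u * F a).re))) := by
    have h1 : ContinuousAt (fun ρ : ℝ => π * (2 * (- Real.log (1 - ‖a‖ ^ 2 / ρ ^ 2)) +
        2 * (conj u * F a).re)) 1 := by
      have h2 : (1:ℝ) - ‖a‖ ^ 2 / 1 ^ 2 ≠ 0 := by
        have : ‖a‖ ^ 2 < 1 := by nlinarith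
        rw [one_pow, div_one]
        linarith
      have h3 : ContinuousAt (fun ρ : ℝ => 1 - ‖a‖ ^ 2 / ρ ^ 2) 1 := by
        apply continuousAt_const.sub
        apply continuousAt_const.div (by fun_prop)
        norm_num
      have h4 := h3.log h2
      exact continuousAt_const.mul ((continuousAt_const.mul h4.neg).add continuousAt_const)
    exact h1.tendsto.mono_left nhdsWithin_le_nhds
  have hfin := le_of_tendsto_of_tendsto hL hRlim (by
    filter_upwards [hev] with ρ hρ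
    exact energy_rho_u h hu hρ₀ hρ.1 hρ.2.2.1 (by simpa using hρ.2.1) ha0 hF hF0 hexp)
  rw [one_pow, div_one] at hfin
  linarith

end Pool.Agent.Helper68.EKC
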