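import Pool.Agent.Helper68.EKC.E1dU
import Pool.Agent.Helper83.EK.KOneD
set_option autoImplicit false
open Complex MeasureTheory Metric Set
open scoped Real ComplexConjugate

/-! EKC: the bound for one target, with a unimodular factor `u` (after helper83). -/

namespace Pool.Agent.Helper68.EKC

open Pool.Agent.Helper39.Area Pool.Agent.Helper52.EK Pool.Agent.Helper70.EK
open Pool.Agent.Helper83.EK (tau_far II_nonneg pt_mapsTo II_le3)

/-- the integrated certificate around the constant solution `al` -/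
def StripA (κ₂ : ℝ) (al : ℂ) (T : ℂ → ℂ → ℝ → ℝ → ℝ) : Prop :=
  ∃ C₁ : ℝ, ∀ (X : ℂ → ℂ) (x₁ x₂ l : ℝ), 1 ≤ l → x₁ + l ≤ x₂ - l → NiceX X x₁ x₂ →
    II (x₁ + l) (x₂ - l) (fun ξ η => T (X (pt ξ η)) (deriv X (pt ξ η)) (Real.sin η) (Real.cos η)) ≤
      (κ₂ + C₁ / l) * II x₁ x₂ (fun ξ η => ‖X (pt ξ η) - al‖ ^ 2)

/-- rescaling `X = al * Xi` -/
theorem strip_scale {κ : ℝ} {al : ℂ} (hal : al ≠ 0) {T : ℂ → ℂ → ℝ → ℝ → ℝ}
    (h : StripIneq κ (fun X Y s c => T (al * X) (al * Y) s c)) :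
    StripA (κ / ‖al‖ ^ 2) al T := by
  obtain ⟨C, hC⟩ := h
  refine ⟨C / ‖al‖ ^ 2, fun X x₁ x₂ l hl hx hX => ?_⟩
  have hn : 0 < ‖al‖ := norm_pos_iff.mpr hal
  set X' : ℂ → ℂ := fun ω => al⁻¹ * X ω with hX'
  have hN : NiceX X' x₁ x₂ := by
    refine ⟨fun ω hω => analyticAt_const.mul (hX.an ω hω), fun ω hω => ?_⟩
    exact mul_ne_zero (inv_ne_zero hal) (hX.ne ω hω)
  have h1 := hC X' x₁ x₂ l hl hx hN
  have e1 : ∀ ω, al * X' ω = X ω := fun ω => by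
    simp only [hX']
    rw [mul_inv_cancel_left₀ hal]
  have e2 : ∀ ω, al * deriv X' ω = deriv X ω := fun ω => by
    simp only [hX']
    rw [deriv_const_mul_field, mul_inv_cancel_left₀ hal]
  have e3 : ∀ ω, ‖X' ω - 1‖ ^ 2 = (‖al‖ ^ 2)⁻¹ * ‖X ω - al‖ ^ 2 := fun ω => by
    have : X' ω - 1 = al⁻¹ * (X ω - al) := by
      simp only [hX']
      rw [mul_sub, inv_mul_cancel₀ hal]
    rw [this, norm_mul, norm_inv, mul_pow, inv_pow]
  simp only [e1, e2, e3] at h1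
  refine h1.trans (le_of_eq ?_)
  have e4 : II x₁ x₂ (fun ξ η => (‖al‖ ^ 2)⁻¹ * ‖X (pt ξ η) - al‖ ^ 2) =
      (‖al‖ ^ 2)⁻¹ * II x₁ x₂ (fun ξ η => ‖X (pt ξ η) - al‖ ^ 2) := by
    unfold II
    simp only [intervalIntegral.integral_const_mul]
  rw [e4]
  field_simp

theorem K_one_U {κ₂ κ L₀ : ℝ} {G : ℂ → ℂ} (hG : GLip G L₀) {u : ℂ} (hu : ‖u‖ = 1)
    (hS : StripA κ₂ ((1 + u) / 2) (TG G)) (h0 : 0 ≤ κ₂) (hκ : κ₂ < 2 * κ) :
    ∃ C a₀ : ℝ, a₀ < 1 ∧ ∀ (β L : ℂ → ℂ) (R a : ℝ), ExtR β R → IsLog β L → a₀ < a → a < 1 →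
      Kf (wf G β) 1 (-1) (Real.log a) ≤
        κ * (- Real.log (1 - a ^ 2) + (conj u * L a).re) + C := by
  have E3 := Pool.Agent.Helper70.EK.E3_of_b Pool.Agent.Helper84.EK.E3b hG
  obtain ⟨C₁, hC₁⟩ := hS
  obtain ⟨Cd, hCd⟩ := E1dU hu
  -- the parameters `l` and `h`
  set δ : ℝ := 2 * κ - κ₂ with hδ
  have hδ0 : 0 < δ := by linarith
  set D : ℝ := max C₁ 0 with hD
  have hD0 : 0 ≤ D := le_max_right _ _
  have hDC : C₁ ≤ D := le_max_left _ _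
  set l : ℝ := 1 + 2 * D / δ with hl
  have hl1 : 1 ≤ l := by
    have : 0 ≤ 2 * D / δ := by positivity
    linarith
  have hl0 : 0 < l := by linarith
  have hDl : D / l ≤ δ / 2 := by
    rw [div_le_div_iff₀ hl0 two_pos]
    have : D * 2 = δ * (2 * D / δ) := by field_simp
    rw [this]
    apply mul_le_mul_of_nonneg_left _ hδ0.le
    linarith
  set k : ℝ := κ₂ + D / l with hk
  have hk0 : 0 ≤ k := by
    have : 0 ≤ D / l := by positivity
    linarith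
  have hk1 : k ≤ κ₂ + δ / 2 := by linarith
  have hk2 : k < 2 * κ := by linarith
  set g : ℝ := (2 * κ - k) / (k + 1) with hg
  have hg0 : 0 < g := div_pos (by linarith) (by linarith)
  have hkg : k * (1 + g) ≤ 2 * κ := by
    have h1 : g * (k + 1) = 2 * κ - k := by
      rw [hg]
      field_simp
    nlinarith
  set A : ℝ := 1 + l with hA
  have hA1 : 1 ≤ A := by linarith
  obtain ⟨C₃, hC₃⟩ := E3 A hA1
  refine ⟨C₃ + π⁻¹ * (k * ((1 + 1 / g) * Cd)), max (Real.exp (-1)) (1 - Real.exp (-2 * A)), ?_, ?_⟩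
  · apply max_lt
    · rw [← Real.exp_zero]
      exact Real.exp_lt_exp.mpr (by norm_num)
    · linarith [Real.exp_pos (-2 * A)]
  intro β L R a hβ hL ha ha1
  have hae : Real.exp (-1) < a := lt_of_le_of_lt (le_max_left _ _) ha
  have ha0 : 0 < a := (Real.exp_pos _).trans hae
  have hfar := tau_far (A := A) (lt_of_le_of_lt (le_max_right _ _) ha) ha0 ha1
  have hK := hC₃ β R a hβ hae ha1 hfar
  set x₁ : ℝ := Real.log (tau a) + 1 with hx₁
  have e1 : Real.log (tau a) + A = x₁ + l := by rw [hA, hx₁]; ring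
  have e2 : -A = -1 - l := by rw [hA]; ring
  rw [e1, e2] at hK hfar
  have hx12 : x₁ ≤ -1 := by linarith
  have hxt : Real.log (tau a) < x₁ := by linarith
  have hX : NiceX (Xf β a) x₁ (-1) := Pool.Agent.Helper67.EK.E1c hβ ha0 ha1 hxt (by norm_num)
  have hst := hC₁ (Xf β a) x₁ (-1) l hl1 hfar hX
  have hb := E1bU hβ hL hu ha0 ha1 hxt hx12 (by norm_num)
  have hd := hCd a ha0 ha1 x₁ (-1) le_rfl hx12 le_rfl
  set Λ : ℝ := - Real.log (1 - a ^ 2) + (conj u * L a).re with hΛ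
  -- continuity
  have cX : ContinuousOn (fun v : ℝ × ℝ => Xf β a (pt v.1 v.2)) (Icc x₁ (-1) ×ˢ Icc 0 π) :=
    hX.an.continuousOn.comp continuous_pt.continuousOn (pt_mapsTo _ _)
  have cK : ContinuousOn (fun v : ℝ × ℝ => kapU a u (pt v.1 v.2)) (Icc x₁ (-1) ×ˢ Icc 0 π) :=
    kapU_contOn u ha0 ha1 hxt (by norm_num)
  have c1 : ContinuousOn (fun v : ℝ × ℝ => ‖Xf β a (pt v.1 v.2) - (1 + u) / 2‖ ^ 2)
      (Icc x₁ (-1) ×ˢ Icc 0 π) := (cX.sub continuousOn_const).norm.pow 2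
  have c2 : ContinuousOn (fun v : ℝ × ℝ => ‖2 * Xf β a (pt v.1 v.2) - 2 * kapU a u (pt v.1 v.2)‖ ^ 2)
      (Icc x₁ (-1) ×ˢ Icc 0 π) :=
    ((continuousOn_const.mul cX).sub (continuousOn_const.mul cK)).norm.pow 2
  have c3 : ContinuousOn (fun v : ℝ × ℝ => ‖kapU a u (pt v.1 v.2) - (1 + u) / 2‖ ^ 2)
      (Icc x₁ (-1) ×ˢ Icc 0 π) := (cK.sub continuousOn_const).norm.pow 2
  have hE := II_le3 (F₁ := fun ξ η => ‖Xf β a (pt ξ η) - (1 + u) / 2‖ ^ 2)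
    (F₂ := fun ξ η => ‖2 * Xf β a (pt ξ η) - 2 * kapU a u (pt ξ η)‖ ^ 2)
    (F₃ := fun ξ η => ‖kapU a u (pt ξ η) - (1 + u) / 2‖ ^ 2) (p := (1 + g) / 4) (q := 1 + 1 / g)
    hx12 c1 c2 c3 (by
      intro ξ η
      have h1 : Xf β a (pt ξ η) - (1 + u) / 2 = (2 * Xf β a (pt ξ η) - 2 * kapU a u (pt ξ η)) / 2 +
        (kapU a u (pt ξ η) - (1 + u) / 2) := by ring
      have h2 : ‖Xf β a (pt ξ η) - (1 + u) / 2‖ ≤ ‖2 * Xf β a (pt ξ η) - 2 * kapU a u (pt ξ η)‖ / 2 +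
          ‖kapU a u (pt ξ η) - (1 + u) / 2‖ := by
        rw [h1]
        refine (norm_add_le _ _).trans ?_
        rw [norm_div]
        simp
      have h3 := norm_nonneg (Xf β a (pt ξ η) - (1 + u) / 2)
      have h4 := norm_nonneg (2 * Xf β a (pt ξ η) - 2 * kapU a u (pt ξ η))
      have h5 := norm_nonneg (kapU a u (pt ξ η) - (1 + u) / 2)
      generalize ‖Xf β a (pt ξ η) - (1 + u) / 2‖ = u₁ at *
      generalize ‖2 * Xf β a (pt ξ η) - 2 * kapU a u (pt ξ η)‖ = v at *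
      generalize ‖kapU a u (pt ξ η) - (1 + u) / 2‖ = w at *
      have h6 : u₁ ^ 2 ≤ (v / 2 + w) ^ 2 := by nlinarith
      have h7 : (v / 2 + w) ^ 2 ≤ (1 + g) / 4 * v ^ 2 + (1 + 1 / g) * w ^ 2 := by
        have h8 : (1 + g) / 4 * v ^ 2 + (1 + 1 / g) * w ^ 2 - (v / 2 + w) ^ 2 =
            (g * v / 2 - w) ^ 2 / g := by
          field_simp
          ring
        have h9 : 0 ≤ (g * v / 2 - w) ^ 2 / g := by positivity
        linarith
      exact h6.trans h7)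
  -- assemble
  have hEn : 0 ≤ II x₁ (-1) (fun ξ η => ‖Xf β a (pt ξ η) - (1 + u) / 2‖ ^ 2) :=
    II_nonneg hx12 (fun ξ η => by positivity)
  set E : ℝ := II x₁ (-1) (fun ξ η => ‖Xf β a (pt ξ η) - (1 + u) / 2‖ ^ 2) with hEdef
  have hπ : 0 < π := Real.pi_pos
  have hπi : 0 < π⁻¹ := inv_pos.mpr hπ
  have hE2 : E ≤ (1 + g) / 4 * (2 * π * Λ) + (1 + 1 / g) * Cd := by
    have h1 : 0 < (1 + g) / 4 := by positivity
    have h2 : 0 < 1 + 1 / g := by positivity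
    have h3 := mul_le_mul_of_nonneg_left hb h1.le
    have h4 := mul_le_mul_of_nonneg_left hd h2.le
    linarith
  have hT : II (x₁ + l) (-1 - l) (fun ξ η => TG G (Xf β a (pt ξ η)) (deriv (Xf β a) (pt ξ η))
      (Real.sin η) (Real.cos η)) ≤ k * E := by
    refine hst.trans ?_
    apply mul_le_mul_of_nonneg_right _ hEn
    rw [hk]
    have : C₁ / l ≤ D / l := div_le_div_of_nonneg_right hDC hl0.le
    linarith
  have hΛ0 : 0 ≤ Λ := by
    have h1 : ‖(a : ℂ)‖ = a := by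
      rw [Complex.norm_real, Real.norm_eq_abs, abs_of_pos ha0]
    have h2 : (a : ℂ) ∈ ball (0:ℂ) 1 := by
      rw [mem_ball_zero_iff, h1]
      exact ha1
    have h3 := hL.goluzin hβ.toExt h2
    rw [h1] at h3
    have h4 : -‖L a‖ ≤ (conj u * L a).re := by
      have h5 := Complex.abs_re_le_norm (conj u * L a)
      rw [norm_mul, RCLike.norm_conj, hu, one_mul] at h5
      exact (neg_le_neg h5).trans (neg_abs_le _)
    rw [hΛ]
    linarith
  have h1 : k * E ≤ k * ((1 + g) / 4 * (2 * π * Λ) + (1 + 1 / g) * Cd) :=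
    mul_le_mul_of_nonneg_left hE2 hk0
  have h2 : π⁻¹ * II (x₁ + l) (-1 - l) (fun ξ η => TG G (Xf β a (pt ξ η))
      (deriv (Xf β a) (pt ξ η)) (Real.sin η) (Real.cos η)) ≤
      π⁻¹ * (k * ((1 + g) / 4 * (2 * π * Λ) + (1 + 1 / g) * Cd)) :=
    mul_le_mul_of_nonneg_left (hT.trans h1) hπi.le
  have h3 : π⁻¹ * (k * ((1 + g) / 4 * (2 * π * Λ) + (1 + 1 / g) * Cd)) =
      k * (1 + g) / 2 * Λ + π⁻¹ * (k * ((1 + 1 / g) * Cd)) := by
    field_simp
    ring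
  have h4 : k * (1 + g) / 2 * Λ ≤ κ * Λ := by
    apply mul_le_mul_of_nonneg_right _ hΛ0
    linarith
  linarith

end Pool.Agent.Helper68.EKC
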